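import Pool.Agent.Q56.NS.Gap

/-!
If the Frobenius endomorphism is not semisimple, then the algebraic cycles are negligible among the
Tate classes.
-/

set_option autoImplicit false
set_option linter.unusedSectionVars false

open CategoryTheory AlgebraicGeometry TensorProduct

universe u v

namespace Pool.Agent.Q56.NS

open Pool.Agent.H914 Pool.Agent.H447 Pool.Agent.W534 VarClass Obj WeilCohomology Module
  Pool.Agent.Y163

variable {k : Type u} [Field k] {𝒱 : VarClass k} {ops : CycleOps 𝒱}
  {W : WeilCohomology.{u, v} ops} {X Y Z A B : 𝒱.Obj} {p : ℕ} {Φ : FrobSystem W p}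

theorem not_finite_descent {D : ℕ → ℕ} (h1 : ∀ m, D (m + 1) ≤ D m)
    (h2 : ∀ K, ∃ m, K ≤ m ∧ D (m + 1) < D m) : False := by
  have hanti : ∀ m n, m ≤ n → D n ≤ D m := by
    intro m n h
    induction n, h using Nat.le_induction with
    | base => exact le_rfl
    | succ n _ ih => exact (h1 n).trans ih
  have h3 : ∀ r, ∃ m, D m + r ≤ D 0 := by
    intro r
    induction r with
    | zero => exact ⟨0, le_rfl⟩
    | succ r ih =>
      obtain ⟨m, hm⟩ := ih
      obtain ⟨n, hn, hlt⟩ := h2 m
      have := hanti m n hn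
      exact ⟨n + 1, by omega⟩
  obtain ⟨m, hm⟩ := h3 (D 0 + 1)
  omega

theorem mrank_shift [IsAlgClosed W.K] (hX : par (W.isInternal X) ∈ KOp W X X 0) (κ n : ℕ) :
    mrank W X (κ + n + 1) ≤ (finrank W.K (W.H X) ^ 2) ^ (κ + 1) * mrank W X n := by
  have h : ∀ a, mrank W X (n + a) ≤ (finrank W.K (W.H X) ^ 2) ^ a * mrank W X n := by
    intro a
    induction a with
    | zero => rw [add_zero, pow_zero, one_mul]
    | succ a ih =>
      rw [← add_assoc]
      refine (mrank_succ_le hX (n + a)).trans ?_
      calc finrank W.K (W.H X) ^ 2 * mrank W X (n + a) ≤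
          finrank W.K (W.H X) ^ 2 * ((finrank W.K (W.H X) ^ 2) ^ a * mrank W X n) :=
            Nat.mul_le_mul_left _ ih
        _ = _ := by ring
  have h1 := h (κ + 1)
  rwa [show n + (κ + 1) = κ + n + 1 by ring] at h1

/-- **The quotient of the dimension of the space of the Tate classes and of the rank of the cycles
tends to infinity if the Frobenius endomorphism is not semisimple.** -/
theorem tate_index_top [IsAlgClosed W.K] (hp : 1 < p) (Φ : FrobSystem W p) (σ : W.K →+* ℂ)
    (hRH : ∀ Z, RiemannHyp Φ σ Z) {D : X.Cycles} (hD : X.IsCyc 1 D) (hbig : Big ops X D)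
    (hss : ¬ (frob Φ X 1).IsSemisimple) :
    Filter.Tendsto (fun n => (finrank W.K (tateSpace Φ (sq X n) ((n + 1) * X.dim)) : ℝ) /
      mrank W X n) Filter.atTop Filter.atTop := by
  have hX : par (W.isInternal X) ∈ KOp W X X 0 := par_mem_of_RH Φ hp σ (hRH X)
  have htr : W.tr X (W.cl X D ^ X.dim) ≠ 0 := hbig.tr hD
  have hH : 0 < finrank W.K (W.H X) := by
    have : Nontrivial (W.H X) := by
      by_contra hcon
      rw [not_nontrivial_iff_subsingleton] at hcon
      apply htr
      rw [Subsingleton.elim (W.cl X D ^ X.dim) 0, map_zero]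
    exact finrank_pos
  have hpos : ∀ n, 0 < mrank W X n := by
    intro n
    have h1 := mrank_growth hX n
    apply Nat.pos_of_ne_zero
    intro h0
    rw [h0, zero_mul] at h1
    have h2 : 0 < (finrank W.K (W.H X) ^ 2) ^ (n + 1) := by positivity
    omega
  have hposR : ∀ n, (0 : ℝ) < mrank W X n := fun n => by exact_mod_cast hpos n
  have hle : ∀ n, mrank W X n ≤ finrank W.K (genU Φ (sq X n) ((n + 1) * X.dim)) := fun n =>
    (kRank_le _ _).trans (Submodule.finrank_mono (span_le_genU Φ _ _))
  let F : ℕ → ∀ n, Submodule W.K (W.H (sq X n)) := fun m n =>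
    (deepFam Φ m).T (sq X n) ((n + 1) * X.dim)
  have hF0 : ∀ n, F 0 n = tateSpace Φ (sq X n) ((n + 1) * X.dim) := fun n => deep_zero Φ _
  have hanti : ∀ m m', m ≤ m' → ∀ n, F m' n ≤ F m n := fun m m' h n => deep_le Φ h _
  rcases index_law hX hH (F 0) ((deepFam Φ 0).stable_sq X) with ⟨D₀, hD1, hD2⟩ | h
  · exfalso
    -- all indices are finite
    have hfin : ∀ m, ∃ d : ℕ, Filter.Tendsto (fun n => (finrank W.K (F m n) : ℝ) / mrank W X n)
        Filter.atTop (nhds d) := by
      intro m
      rcases index_law hX hH (F m) ((deepFam Φ m).stable_sq X) with ⟨d, -, h2⟩ | h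
      · exact ⟨d, h2⟩
      · exfalso
        obtain ⟨n, hn⟩ := (h.eventually (Filter.eventually_gt_atTop (D₀ : ℝ))).exists
        have h3 : finrank W.K (F m n) ≤ D₀ * mrank W X n :=
          (Submodule.finrank_mono (hanti 0 m (Nat.zero_le _) n)).trans (hD1 n)
        rw [lt_div_iff₀ (hposR n)] at hn
        have h4 : (finrank W.K (F m n) : ℝ) ≤ D₀ * mrank W X n := by exact_mod_cast h3
        linarith
    choose d hd using hfin
    -- the strict inclusions
    have hdrop : ∀ m κ, ¬ F m κ ≤ F (m + 1) κ → d (m + 1) < d m := by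
      intro m κ hne
      set c : ℝ := (((finrank W.K (W.H X) ^ 2) ^ (κ + 1) : ℕ) : ℝ) with hc
      have hc0 : 0 < c := by
        rw [hc]
        exact_mod_cast pow_pos (pow_pos hH 2) _
      have h1 : ∀ n, (mrank W X (κ + n + 1) : ℝ) + c * finrank W.K (F (m + 1) (κ + n + 1)) ≤
          c * finrank W.K (F m (κ + n + 1)) := by
        intro n
        have h2 : mrank W X n + finrank W.K (F (m + 1) (κ + n + 1)) ≤
            finrank W.K (F m (κ + n + 1)) :=
          gap_sq (deepFam Φ (m + 1)) (deepFam Φ m) (fun Z j => deep_succ_le Φ m j) hne n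
        have h3 : (mrank W X (κ + n + 1) : ℝ) ≤ c * mrank W X n := by
          rw [hc]
          exact_mod_cast mrank_shift hX κ n
        have h4 : (mrank W X n : ℝ) + finrank W.K (F (m + 1) (κ + n + 1)) ≤
            finrank W.K (F m (κ + n + 1)) := by exact_mod_cast h2
        have h5 := mul_le_mul_of_nonneg_left h4 hc0.le
        linarith
      have h2 : 1 + c * d (m + 1) ≤ c * (d m : ℝ) := by
        have e1 := ((hd (m + 1)).const_mul c).const_add 1
        have e2 := (hd m).const_mul c
        refine le_of_tendsto_of_tendsto e1 e2 ?_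
        filter_upwards [Filter.eventually_ge_atTop (κ + 1)] with N hN
        obtain ⟨n, rfl⟩ := Nat.exists_eq_add_of_le hN
        have h3 := h1 n
        rw [show κ + 1 + n = κ + n + 1 by ring]
        have h4 := hposR (κ + n + 1)
        rw [← mul_div_assoc, ← mul_div_assoc, ← div_self h4.ne', ← add_div]
        exact div_le_div_of_nonneg_right h3 h4.le
      have h3 : (d (m + 1) : ℝ) < d m := by
        by_contra hcon
        push Not at hcon
        have := mul_le_mul_of_nonneg_left hcon hc0.le
        linarith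
      exact_mod_cast h3
    have hmono : ∀ m, d (m + 1) ≤ d m := by
      intro m
      by_cases h : ∀ κ, F m κ ≤ F (m + 1) κ
      · have h1 : ∀ κ, F m κ = F (m + 1) κ := fun κ =>
          le_antisymm (h κ) (hanti m (m + 1) (Nat.le_succ m) κ)
        have h2 := hd m
        have e : (fun n => (finrank W.K (F m n) : ℝ) / mrank W X n) =
            fun n => (finrank W.K (F (m + 1) n) : ℝ) / mrank W X n := by
          funext n
          rw [h1 n]
        rw [e] at h2
        have h3 := tendsto_nhds_unique h2 (hd (m + 1))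
        have h4 : d m = d (m + 1) := by exact_mod_cast h3
        omega
      · push Not at h
        obtain ⟨κ, hκ⟩ := h
        exact (hdrop m κ hκ).le
    refine not_finite_descent hmono fun K => ?_
    by_cases hK : ∀ κ, F (K + 1) κ = ⊥
    · -- the depth is bounded: contradiction to the count
      exfalso
      have hlim := (bound_tendsto hH).mul_const ((K + 1 : ℕ) : ℝ)
      rw [zero_mul] at hlim
      obtain ⟨n, hn⟩ := (hlim.eventually (gt_mem_nhds (zero_lt_one))).exists
      have h1 := tate_le hp Φ σ hRH hD hbig (le_refl (finrank W.K (W.H X))) hss n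
      have h2 : finrank W.K (genU Φ (sq X n) ((n + 1) * X.dim)) ≤
          (K + 1) * finrank W.K (tateSpace Φ (sq X n) ((n + 1) * X.dim)) :=
        genU_le_of_deep (hK n)
      have h3 : (finrank W.K (genU Φ (sq X n) ((n + 1) * X.dim)) : ℝ) ≤
          ((K + 1 : ℕ) : ℝ) * finrank W.K (tateSpace Φ (sq X n) ((n + 1) * X.dim)) := by
        exact_mod_cast h2
      have h4 : (0 : ℝ) < finrank W.K (genU Φ (sq X n) ((n + 1) * X.dim)) := by
        exact_mod_cast (hpos n).trans_le (hle n)
      have h5 : (0 : ℝ) ≤ ((K + 1 : ℕ) : ℝ) := Nat.cast_nonneg _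
      have h6 := mul_le_mul_of_nonneg_left h1 h5
      nlinarith
    · push Not at hK
      obtain ⟨κ, hκ⟩ := hK
      by_contra hcon
      push Not at hcon
      apply hκ
      have h1 : ∀ r, F (K + 1) κ = F (K + 1 + r) κ := by
        intro r
        induction r with
        | zero => rfl
        | succ r ih =>
          rw [ih]
          by_contra hne
          have h2 : ¬ F (K + 1 + r) κ ≤ F (K + 1 + r + 1) κ := fun h =>
            hne (le_antisymm h (hanti _ _ (Nat.le_succ _) κ))
          have h3 := hdrop (K + 1 + r) κ h2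
          have h4 := hcon (K + 1 + r) (by omega)
          omega
      rw [h1 (finrank W.K (W.H (sq X κ)))]
      exact deep_eq_bot Φ (by omega) _
  · have e : (fun n => (finrank W.K (F 0 n) : ℝ) / mrank W X n) =
        fun n => (finrank W.K (tateSpace Φ (sq X n) ((n + 1) * X.dim)) : ℝ) / mrank W X n := by
      funext n
      rw [hF0 n]
    rwa [e] at h

/-- **A positive proportion of algebraic cycles among the Tate classes forces the semisimplicity of
the Frobenius endomorphism.** -/
theorem main_tate [IsAlgClosed W.K] (hp : 1 < p) (Φ : FrobSystem W p) (σ : W.K →+* ℂ)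
    (hRH : ∀ Z, RiemannHyp Φ σ Z) {D : X.Cycles} (hD : X.IsCyc 1 D) (hbig : Big ops X D) :
    ∃ r t : ℕ → ℕ,
      (∀ n, r n = numRank ops (sq X n) ((n + 1) * X.dim)) ∧
      (∀ n, t n = finrank W.K (tateSpace Φ (sq X n) ((n + 1) * X.dim))) ∧
      (∀ n, 0 < r n ∧ r n ≤ t n) ∧
      (Filter.Tendsto (fun n => (t n : ℝ) / r n) Filter.atTop Filter.atTop ∨
        (Module.End.IsSemisimple (W.map (Φ.Fr X)).toLinearMap ∧
          (∀ n, PoleOrderIs Φ σ (sq X n) ((n + 1) * X.dim) (t n)) ∧
          ∃ d : ℕ, (∀ n, t n ≤ d * r n) ∧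
            Filter.Tendsto (fun n => (t n : ℝ) / r n) Filter.atTop (nhds d))) := by
  have hX : par (W.isInternal X) ∈ KOp W X X 0 := par_mem_of_RH Φ hp σ (hRH X)
  have htr : W.tr X (W.cl X D ^ X.dim) ≠ 0 := hbig.tr hD
  have hH : 0 < finrank W.K (W.H X) := by
    have : Nontrivial (W.H X) := by
      by_contra hcon
      rw [not_nontrivial_iff_subsingleton] at hcon
      apply htr
      rw [Subsingleton.elim (W.cl X D ^ X.dim) 0, map_zero]
    exact finrank_pos
  have hpos : ∀ n, 0 < mrank W X n := by
    intro n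
    have h1 := mrank_growth hX n
    apply Nat.pos_of_ne_zero
    intro h0
    rw [h0, zero_mul] at h1
    have h2 : 0 < (finrank W.K (W.H X) ^ 2) ^ (n + 1) := by positivity
    omega
  have hr1 : ∀ n, mrank W X n ≤
      finrank W.K (tateSpace Φ (sq X n) ((n + 1) * X.dim)) := fun n =>
    (kRank_le _ _).trans (Submodule.finrank_mono (span_le_tateSpace Φ _ _))
  have hF : frob Φ X 1 = (W.map (Φ.Fr X)).toLinearMap := by
    have h : Pool.Agent.W534.iter (Φ.Fr X) 1 = Φ.Fr X := by
      simp [Pool.Agent.W534.iter]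
    rw [frob, h]
  refine ⟨fun n => mrank W X n, fun n => finrank W.K (tateSpace Φ (sq X n) ((n + 1) * X.dim)),
    fun n => (numRank_sq X n).symm, fun n => rfl, fun n => ⟨hpos n, hr1 n⟩, ?_⟩
  rw [← hF]
  by_cases hss : (frob Φ X 1).IsSemisimple
  · have h0 : ∀ n, (deepFam Φ 0).T (sq X n) ((n + 1) * X.dim) =
        tateSpace Φ (sq X n) ((n + 1) * X.dim) := fun n => deep_zero Φ _
    have e : (fun n => (finrank W.K ((deepFam Φ 0).T (sq X n) ((n + 1) * X.dim)) : ℝ) /
        mrank W X n) =
        fun n => (finrank W.K (tateSpace Φ (sq X n) ((n + 1) * X.dim)) : ℝ) / mrank W X n := by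
      funext n
      rw [h0 n]
    rcases index_law hX hH (fun n => (deepFam Φ 0).T (sq X n) ((n + 1) * X.dim))
      ((deepFam Φ 0).stable_sq X) with ⟨d, hd1, hd2⟩ | h
    · right
      rw [e] at hd2
      have hd1 : ∀ n, finrank W.K (tateSpace Φ (sq X n) ((n + 1) * X.dim)) ≤
          d * mrank W X n := by
        intro n
        rw [← h0 n]
        exact hd1 n
      refine ⟨hss, fun n => ?_, d, hd1, hd2⟩
      have h1 := tate_eq hp Φ σ hRH hss n
      change PoleOrderIs Φ σ (sq X n) ((n + 1) * X.dim)
        (finrank W.K (tateSpace Φ (sq X n) ((n + 1) * X.dim)))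
      rw [h1]
      exact poleOrderIs hp (hRH _) (by rw [dim_sq]; omega)
    · left
      rw [e] at h
      exact h
  · exact Or.inl (tate_index_top hp Φ σ hRH hD hbig hss)

end Pool.Agent.Q56.NS
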