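import Pool.Agent.Q56.NS.Spec

/-!
The number of Jordan blocks in the tensor powers of an operator which is not semisimple.
-/

set_option autoImplicit false
set_option linter.unusedSectionVars false

open Module LinearMap TensorProduct Finset

namespace Pool.Agent.Q56.NS

universe u v w

/-! ### The tensor powers of a Jordan block of size two -/

/-- the dimension of the kernel of the `k`-th power of a nilpotent operator, on the `s`-th tensor
power of a Jordan block of size two -/
def bl : ℕ → ℕ → ℕ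
  | 0, 0 => 0
  | 0, _ + 1 => 1
  | _ + 1, 0 => 0
  | s + 1, k + 1 => bl s (k + 2) + bl s k

theorem bl_zero_right (s : ℕ) : bl s 0 = 0 := by
  cases s <;> rfl

theorem bl_succ (s k : ℕ) : bl (s + 1) (k + 1) = bl s (k + 2) + bl s k := rfl

theorem choose_half (s : ℕ) : s.choose (s / 2) = s.choose ((s + 1) / 2) := by
  rw [← Nat.choose_symm (Nat.div_le_self s 2)]
  congr 1
  omega

theorem bl_eq (s k : ℕ) : bl s k = ∑ j ∈ range k, s.choose ((s + j + 1) / 2) := by
  induction s generalizing k with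
  | zero =>
    rcases k with _ | k
    · rfl
    · rw [sum_range_succ']
      have h1 : ∑ j ∈ range k, Nat.choose 0 ((0 + (j + 1) + 1) / 2) = 0 := by
        refine sum_eq_zero fun j _ => ?_
        exact Nat.choose_eq_zero_of_lt (by omega)
      rw [h1]
      rfl
  | succ s ih =>
    rcases k with _ | k
    · rfl
    · rw [bl_succ, ih, ih]
      have h1 : ∀ j, (s + 1).choose ((s + 1 + j + 1) / 2) =
          s.choose ((s + j) / 2) + s.choose ((s + j + 2) / 2) := by
        intro j
        rw [show (s + 1 + j + 1) / 2 = (s + j) / 2 + 1 by omega, Nat.choose_succ_succ,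
          show (s + j + 2) / 2 = (s + j) / 2 + 1 by omega]
      rw [sum_congr rfl fun j _ => h1 j, sum_add_distrib, sum_range_succ' _ (k + 1),
        sum_range_succ' (fun j => s.choose ((s + j) / 2)) k]
      have h2 : s.choose ((s + 0) / 2) = s.choose ((s + 0 + 1) / 2) := choose_half s
      rw [h2]
      have h3 : ∀ j, (s + (j + 1) + 1) / 2 = (s + j + 2) / 2 := fun j => by omega
      have h4 : ∀ j, (s + (j + 1)) / 2 = (s + j + 1) / 2 := fun j => by omega
      simp only [h3, h4]
      omega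

theorem bl_one (s : ℕ) : bl s 1 = s.choose ((s + 1) / 2) := by
  rw [bl_eq, sum_range_one]

theorem centralBinom_bound (k : ℕ) : (2 * k + 1) * k.centralBinom ^ 2 ≤ 16 ^ k := by
  induction k with
  | zero => simp
  | succ k ih =>
    have h1 := Nat.succ_mul_centralBinom_succ k
    have h2 : (k + 1) ^ 2 * ((2 * (k + 1) + 1) * (k + 1).centralBinom ^ 2) ≤
        (k + 1) ^ 2 * 16 ^ (k + 1) := by
      calc (k + 1) ^ 2 * ((2 * (k + 1) + 1) * (k + 1).centralBinom ^ 2)
          = (2 * k + 3) * ((k + 1) * (k + 1).centralBinom) ^ 2 := by ring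
        _ = 4 * ((2 * k + 3) * (2 * k + 1)) * ((2 * k + 1) * k.centralBinom ^ 2) := by
            rw [h1]; ring
        _ ≤ 4 * (4 * (k + 1) ^ 2) * 16 ^ k := by
            refine Nat.mul_le_mul (Nat.mul_le_mul_left 4 ?_) ih
            nlinarith
        _ = (k + 1) ^ 2 * 16 ^ (k + 1) := by ring
    exact Nat.le_of_mul_le_mul_left h2 (by positivity)

theorem bl_one_sq (s : ℕ) : (s + 1) * bl s 1 ^ 2 ≤ 4 ^ s := by
  rw [bl_one]
  obtain ⟨k, rfl | rfl⟩ := s.even_or_odd'
  · rw [show (2 * k + 1) / 2 = k by omega]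
    have := centralBinom_bound k
    rw [Nat.centralBinom] at this
    rwa [pow_mul, show 4 ^ 2 = 16 by norm_num]
  · rw [show (2 * k + 1 + 1) / 2 = k + 1 by omega]
    have h1 := centralBinom_bound (k + 1)
    have h2 : (k + 1).centralBinom = 2 * (2 * k + 1).choose (k + 1) := by
      rw [Nat.centralBinom, show 2 * (k + 1) = (2 * k + 1) + 1 by ring, Nat.choose_succ_succ,
        Nat.choose_symm_half]
      ring
    rw [h2] at h1
    have h3 : 4 * ((2 * k + 1 + 1) * (2 * k + 1).choose (k + 1) ^ 2) ≤ 4 * 4 ^ (2 * k + 1) := by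
      calc 4 * ((2 * k + 1 + 1) * (2 * k + 1).choose (k + 1) ^ 2)
          ≤ 4 * ((2 * (k + 1) + 1) * (2 * k + 1).choose (k + 1) ^ 2) := by
            refine Nat.mul_le_mul_left 4 (Nat.mul_le_mul_right _ (by omega))
        _ = (2 * (k + 1) + 1) * (2 * (2 * k + 1).choose (k + 1)) ^ 2 := by ring
        _ ≤ 16 ^ (k + 1) := h1
        _ = 4 * 4 ^ (2 * k + 1) := by
            rw [show (16 : ℕ) = 4 ^ 2 by norm_num, ← pow_mul]
            ring
    exact Nat.le_of_mul_le_mul_left h3 (by norm_num)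

theorem bl_one_le (s : ℕ) : bl s 1 ≤ 2 ^ s := by
  rw [bl_one]
  exact Nat.choose_le_two_pow _ _

/-- The bound for the number of blocks. -/
theorem bl_bound {D N : ℕ} (hD : 0 < D) (hN : 0 < N) (s : ℕ) :
    (bl s 1 : ℝ) ≤ Real.sqrt (D / N) * 2 ^ s + (1 + 1 / D) ^ N := by
  have hD' : (0 : ℝ) < D := by exact_mod_cast hD
  have hN' : (0 : ℝ) < N := by exact_mod_cast hN
  by_cases hs : N ≤ (s + 1) * D
  · have h1 : (bl s 1 : ℝ) ≤ Real.sqrt (D / N) * 2 ^ s := by
      have h2 : (0 : ℝ) ≤ Real.sqrt (D / N) * 2 ^ s := by positivity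
      refine le_of_sq_le_sq ?_ h2
      rw [mul_pow, Real.sq_sqrt (by positivity)]
      have h3 : ((s + 1 : ℕ) : ℝ) * (bl s 1 : ℝ) ^ 2 ≤ 4 ^ s := by exact_mod_cast bl_one_sq s
      have h4 : (N : ℝ) ≤ ((s + 1 : ℕ) : ℝ) * D := by exact_mod_cast hs
      have h5 : ((2 : ℝ) ^ s) ^ 2 = 4 ^ s := by
        rw [← pow_mul, mul_comm, pow_mul]; norm_num
      rw [h5, div_mul_eq_mul_div, le_div_iff₀ hN']
      calc (bl s 1 : ℝ) ^ 2 * N ≤ (bl s 1 : ℝ) ^ 2 * (((s + 1 : ℕ) : ℝ) * D) := by gcongr
        _ = D * (((s + 1 : ℕ) : ℝ) * (bl s 1 : ℝ) ^ 2) := by ring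
        _ ≤ D * 4 ^ s := by gcongr
    have h6 : (0 : ℝ) ≤ (1 + 1 / D) ^ N := by positivity
    linarith
  · push Not at hs
    have h1 : (bl s 1 : ℝ) ≤ 2 ^ s := by exact_mod_cast bl_one_le s
    have h2 : (2 : ℝ) ≤ (1 + 1 / D) ^ D := by
      have h3 := one_add_mul_le_pow (a := (1 / D : ℝ)) (by
        have : (0 : ℝ) ≤ 1 / D := by positivity
        linarith) D
      rw [mul_one_div_cancel hD'.ne'] at h3
      linarith
    have h4 : (2 : ℝ) ^ s ≤ (1 + 1 / D) ^ N := by
      calc (2 : ℝ) ^ s ≤ ((1 + 1 / D) ^ D) ^ s := by gcongr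
        _ = (1 + 1 / D) ^ (D * s) := by rw [← pow_mul]
        _ ≤ (1 + 1 / D) ^ N := by
            refine pow_le_pow_right₀ ?_ ?_
            · have : (0 : ℝ) ≤ 1 / D := by positivity
              linarith
            · nlinarith
    have h5 : (0 : ℝ) ≤ Real.sqrt (D / N) * 2 ^ s := by positivity
    linarith

/-! ### Words -/

section words

variable {K : Type u} [Field K]

open Classical in
/-- the number of the words of length `N` in `α` and the members of `l` with product `β`, with
`s` letters equal to `α` -/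
noncomputable def hw (α : K) (l : List K) : ℕ → ℕ → K → ℕ
  | 0, 0, β => if β = 1 then 1 else 0
  | 0, _ + 1, _ => 0
  | N + 1, 0, β => (l.map fun ρ => hw α l N 0 (β / ρ)).sum
  | N + 1, s + 1, β => hw α l N s (β / α) + (l.map fun ρ => hw α l N (s + 1) (β / ρ)).sum

theorem hw_eq_zero {α : K} {l : List K} : ∀ {N s : ℕ}, N < s → ∀ β, hw α l N s β = 0 := by
  intro N
  induction N with
  | zero =>
    intro s hs β
    rcases s with _ | s
    · omega
    · rfl
  | succ N ih =>
    intro s hs β
    rcases s with _ | s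
    · omega
    · rw [hw, ih (by omega)]
      have h1 : (l.map fun ρ => hw α l N (s + 1) (β / ρ)) = l.map fun _ => 0 := by
        refine List.map_congr_left fun ρ _ => ih (by omega) _
      rw [h1]
      simp

theorem sum_list {ι : Type*} (S : Finset ι) (c : ι → ℕ) (l : List K) (f : ι → K → ℕ) :
    ∑ s ∈ S, c s * (l.map (f s)).sum = (l.map fun ρ => ∑ s ∈ S, c s * f s ρ).sum := by
  induction l with
  | nil => simp
  | cons a l ih =>
    simp only [List.map_cons, List.sum_cons]
    rw [← ih, ← sum_add_distrib]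
    exact sum_congr rfl fun s _ => by ring

/-- the recursion for a weighted sum over the words -/
theorem sum_hw (α : K) (l : List K) (c : ℕ → ℕ) (N : ℕ) (β : K) :
    ∑ s ∈ range (N + 2), c s * hw α l (N + 1) s β =
      ∑ s ∈ range (N + 1), c (s + 1) * hw α l N s (β / α) +
        (l.map fun ρ => ∑ s ∈ range (N + 1), c s * hw α l N s (β / ρ)).sum := by
  have h1 : ∀ ρ, ∑ s ∈ range (N + 1), c s * hw α l N s (β / ρ) =
      ∑ s ∈ range (N + 2), c s * hw α l N s (β / ρ) := by
    intro ρ
    rw [sum_range_succ _ (N + 1), hw_eq_zero (by omega), mul_zero, add_zero]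
  simp only [h1]
  rw [← sum_list (range (N + 2)) c l (fun s ρ => hw α l N s (β / ρ)), sum_range_succ' _ (N + 1),
    sum_range_succ' (fun s => c s * (l.map fun ρ => hw α l N s (β / ρ)).sum) (N + 1), ← add_assoc,
    ← sum_add_distrib]
  congr 1
  refine sum_congr rfl fun s _ => ?_
  rw [hw, mul_add]

theorem sum_hw_le (α : K) (l : List K) (N : ℕ) (β : K) :
    ∑ s ∈ range (N + 1), hw α l N s β ≤ (l.length + 1) ^ N := by
  induction N generalizing β with
  | zero =>
    rw [sum_range_one, hw]
    split_ifs <;> simp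
  | succ N ih =>
    have h := sum_hw α l (fun _ => 1) N β
    simp only [one_mul] at h
    rw [h, pow_succ, mul_add, mul_one, add_comm]
    refine Nat.add_le_add ?_ (ih _)
    calc (l.map fun ρ => ∑ s ∈ range (N + 1), hw α l N s (β / ρ)).sum
        ≤ (l.map fun _ => (l.length + 1) ^ N).sum := List.sum_le_sum fun ρ _ => ih _
      _ = (l.length + 1) ^ N * l.length := by simp [mul_comm]

end words

end Pool.Agent.Q56.NS
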