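import Pool.Agent.Q56.NS.Main

/-!
The filtration of the Tate classes by the images of the powers of the nilpotent part of the
Frobenius endomorphism.
-/

set_option autoImplicit false
set_option linter.unusedSectionVars false

open CategoryTheory AlgebraicGeometry TensorProduct

universe u v

namespace Pool.Agent.Q56.NS

open Pool.Agent.H914 Pool.Agent.H447 Pool.Agent.W534 VarClass Obj WeilCohomology Module
  Pool.Agent.Y163

section Lin

variable {K E : Type*} [Field K] [AddCommGroup E] [Module K E]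

/-- `x` is in the kernel of `F - μ` and in the image of the `k`-th power of its restriction to the
generalised eigenspace. -/
def IsDeep (F : Module.End K E) (μ : K) (k : ℕ) (S : Submodule K E) (x : E) : Prop :=
  ∃ y ∈ S, (sb F μ ^ (k + 1)) y = 0 ∧ x = (sb F μ ^ k) y

theorem sb_pow_eq (F : Module.End K E) (μ : K) (r : ℕ) :
    sb (F ^ r) (μ ^ r) =
      (∑ i ∈ Finset.range r, F ^ i * (μ • (1 : Module.End K E)) ^ (r - 1 - i)) * sb F μ := by
  have hc : Commute F (μ • (1 : Module.End K E)) := (Commute.one_right F).smul_right μ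
  rw [sb, sb, hc.geom_sum₂_mul r, smul_pow, one_pow]

theorem IsDeep.pow [CharZero K] {F : Module.End K E} {μ : K} (hμ : μ ≠ 0) {k : ℕ}
    {S : Submodule K E} {x : E} (h : IsDeep F μ k S x) {r : ℕ} (hr : 0 < r) :
    IsDeep (F ^ r) (μ ^ r) k S x := by
  obtain ⟨y, hy, h1, h2⟩ := h
  set P : Module.End K E :=
    ∑ i ∈ Finset.range r, F ^ i * (μ • (1 : Module.End K E)) ^ (r - 1 - i) with hP
  have hB : sb (F ^ r) (μ ^ r) = P * sb F μ := sb_pow_eq F μ r
  have hcF : Commute F (sb F μ) := by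
    rw [sb]
    exact (Commute.refl F).sub_right ((Commute.one_right F).smul_right μ)
  have hcomm : Commute P (sb F μ) := by
    rw [hP]
    refine Commute.sum_left _ _ _ fun i _ => ?_
    refine (hcF.pow_left i).mul_left ?_
    refine Commute.pow_left ?_ _
    exact (Commute.one_left _).smul_left μ
  have hx : sb F μ x = 0 := by
    rw [h2, ← Module.End.mul_apply, ← pow_succ']
    exact h1
  have hFx : F x = μ • x := by
    rw [sb_apply, sub_eq_zero] at hx
    exact hx
  have hPx : P x = ((r : K) * μ ^ (r - 1)) • x := by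
    have h3 : ∀ i ∈ Finset.range r,
        (F ^ i * (μ • (1 : Module.End K E)) ^ (r - 1 - i)) x = μ ^ (r - 1) • x := by
      intro i hi
      rw [Finset.mem_range] at hi
      have h4 : ∀ m, (F ^ m) x = μ ^ m • x := by
        intro m
        induction m with
        | zero => simp
        | succ m ih => rw [pow_succ', Module.End.mul_apply, ih, map_smul, hFx, smul_smul,
            ← pow_succ]
      rw [Module.End.mul_apply, smul_pow, one_pow, LinearMap.smul_apply, Module.End.one_apply,
        map_smul, h4, smul_smul, ← pow_add]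
      congr 2
      omega
    rw [hP, LinearMap.sum_apply, Finset.sum_congr rfl h3, Finset.sum_const, Finset.card_range,
      ← Nat.cast_smul_eq_nsmul K, smul_smul]
  set c : K := (r : K) * μ ^ (r - 1) with hc
  have hc0 : c ≠ 0 := mul_ne_zero (Nat.cast_ne_zero.2 hr.ne') (pow_ne_zero _ hμ)
  have hPk : ∀ m, (P ^ m) x = c ^ m • x := by
    intro m
    induction m with
    | zero => simp
    | succ m ih => rw [pow_succ', Module.End.mul_apply, ih, map_smul, hPx, smul_smul, ← pow_succ]
  refine ⟨(c ^ k)⁻¹ • y, S.smul_mem _ hy, ?_, ?_⟩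
  · rw [map_smul, hB, hcomm.mul_pow, Module.End.mul_apply, h1, map_zero, smul_zero]
  · rw [map_smul, hB, hcomm.mul_pow, Module.End.mul_apply, ← h2, hPk, smul_smul,
      inv_mul_cancel₀ (pow_ne_zero _ hc0), one_smul]

/-- Transport along a semilinear intertwining relation. -/
theorem IsDeep.image {E' : Type*} [AddCommGroup E'] [Module K E'] {F : Module.End K E}
    {F' : Module.End K E'} {μ μ' : K} {k : ℕ} {S : Submodule K E} {S' : Submodule K E'} {x : E}
    (h : IsDeep F μ k S x) (T : E →ₗ[K] E') {c : K} (hc : c ≠ 0)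
    (hT : ∀ y, sb F' μ' (T y) = c • T (sb F μ y)) (hS : ∀ y ∈ S, T y ∈ S') :
    IsDeep F' μ' k S' (T x) := by
  obtain ⟨y, hy, h1, h2⟩ := h
  have key : ∀ (n : ℕ) (y : E), (sb F' μ' ^ n) (T y) = c ^ n • T ((sb F μ ^ n) y) := by
    intro n
    induction n with
    | zero => intro y; simp
    | succ n ih =>
      intro y
      rw [pow_succ, Module.End.mul_apply, hT, map_smul, ih, smul_smul, pow_succ (sb F μ),
        Module.End.mul_apply, ← pow_succ']
  refine ⟨(c ^ k)⁻¹ • T y, S'.smul_mem _ (hS y hy), ?_, ?_⟩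
  · rw [map_smul, key, h1, map_zero, smul_zero, smul_zero]
  · rw [map_smul, key, ← h2, smul_smul, inv_mul_cancel₀ (pow_ne_zero _ hc), one_smul]

theorem IsDeep.zero (F : Module.End K E) (μ : K) (k : ℕ) (S : Submodule K E) :
    IsDeep F μ k S 0 := ⟨0, S.zero_mem, map_zero _, (map_zero _).symm⟩

theorem IsDeep.add {F : Module.End K E} {μ : K} {k : ℕ} {S : Submodule K E} {x x' : E}
    (h : IsDeep F μ k S x) (h' : IsDeep F μ k S x') : IsDeep F μ k S (x + x') := by
  obtain ⟨y, hy, h1, h2⟩ := h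
  obtain ⟨y', hy', h1', h2'⟩ := h'
  exact ⟨y + y', S.add_mem hy hy', by rw [map_add, h1, h1', add_zero], by rw [map_add, h2, h2']⟩

theorem IsDeep.smul {F : Module.End K E} {μ : K} {k : ℕ} {S : Submodule K E} {x : E}
    (h : IsDeep F μ k S x) (c : K) : IsDeep F μ k S (c • x) := by
  obtain ⟨y, hy, h1, h2⟩ := h
  exact ⟨c • y, S.smul_mem _ hy, by rw [map_smul, h1, smul_zero], by rw [map_smul, h2]⟩

end Lin

variable {k : Type u} [Field k] {𝒱 : VarClass k} {ops : CycleOps 𝒱}
  {W : WeilCohomology.{u, v} ops} {X Y Z : 𝒱.Obj} {p : ℕ} (Φ : FrobSystem W p)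

/-- The Tate classes of depth at least `m`: the eigenvectors at the end of a Jordan chain with
`m + 1` members. -/
def Deep (m : ℕ) (Z : 𝒱.Obj) (j : ℕ) (x : W.H Z) : Prop :=
  ∃ s, 0 < s ∧ IsDeep (frob Φ Z s) ((card Φ Z s : W.K) ^ j) m (W.gr Z (2 * j)) x

theorem deep_level {m j s r : ℕ} {x : W.H Z} (hr : 0 < r)
    (h : IsDeep (frob Φ Z s) ((card Φ Z s : W.K) ^ j) m (W.gr Z (2 * j)) x) :
    IsDeep (frob Φ Z (s * r)) ((card Φ Z (s * r) : W.K) ^ j) m (W.gr Z (2 * j)) x := by
  have h1 := h.pow (pow_ne_zero _ (card_ne Φ s)) hr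
  rwa [← frob_mul_eq, pow_right_comm, ← Nat.cast_pow, ← card_mul_eq] at h1

theorem deep_level' {m j s r : ℕ} {x : W.H Z} (hr : 0 < r)
    (h : IsDeep (frob Φ Z s) ((card Φ Z s : W.K) ^ j) m (W.gr Z (2 * j)) x) :
    IsDeep (frob Φ Z (r * s)) ((card Φ Z (r * s) : W.K) ^ j) m (W.gr Z (2 * j)) x := by
  rw [mul_comm]
  exact deep_level Φ hr h

/-- The system of the Tate classes of depth at least `m`. -/
noncomputable def deepFam (m : ℕ) : SFam W where
  T Z j :=
    { carrier := {x | Deep Φ m Z j x}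
      zero_mem' := ⟨1, one_pos, IsDeep.zero _ _ _ _⟩
      add_mem' := by
        rintro a b ⟨s, hs, ha⟩ ⟨t, ht, hb⟩
        exact ⟨s * t, Nat.mul_pos hs ht, (deep_level Φ ht ha).add (deep_level' Φ hs hb)⟩
      smul_mem' := by
        rintro c a ⟨s, hs, ha⟩
        exact ⟨s, hs, ha.smul c⟩ }
  cl_mul := by
    rintro Z j i z c hz ⟨s, hs, hc⟩
    obtain ⟨t, ht, h2⟩ := Φ.cyc hz
    refine ⟨s * t, Nat.mul_pos hs ht, ?_⟩
    have h3 : frob Φ Z t (W.cl Z z) = ((card Φ Z t : W.K) ^ i) • W.cl Z z := by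
      rw [card_pow]; exact h2
    have h4 := span_eig_mul' Φ h3 s
    have h5 := deep_level Φ ht hc
    refine h5.image (LinearMap.mulLeft W.K (W.cl Z z))
      (pow_ne_zero i (card_ne Φ (Z := Z) (s * t))) ?_ ?_
    · intro y
      rw [LinearMap.mulLeft_apply, LinearMap.mulLeft_apply, sb_apply, sb_apply, frob_apply,
        map_mul, ← frob_apply, ← frob_apply, h4, mul_sub, smul_sub, smul_mul_assoc,
        mul_smul_comm, smul_smul, ← pow_add]
    · intro y hy
      have := W.mul_mem (W.cl_mem hz) hy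
      rwa [show 2 * i + 2 * j = 2 * (i + j) by ring] at this
  map := by
    rintro X Y f j c ⟨s, hs, hc⟩
    obtain ⟨a, b, ha, hb, hab, h⟩ := frob_comm (W := W) Φ f
    refine ⟨a * s, Nat.mul_pos ha hs, ?_⟩
    have h5 := deep_level' Φ hb hc
    have hcard := card_eq_of Φ (s := s) hab
    refine h5.image (W.map f).toLinearMap (one_ne_zero (α := W.K)) ?_ ?_
    · intro y
      change sb _ _ (W.map f y) = (1 : W.K) • W.map f _
      rw [one_smul, sb_apply, sb_apply, map_sub, map_smul, frob_apply, frob_apply, h, hcard]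
    · intro y hy
      exact W.map_mem f hy
  push := by
    rintro X Y f i j c ⟨s, hs, hc⟩ hij
    obtain ⟨a, b, ha, hb, hab, h⟩ := frob_comm (W := W) Φ f
    refine ⟨b * s, Nat.mul_pos hb hs, ?_⟩
    have h5 := deep_level' Φ ha hc
    have hcard := card_eq_of Φ (s := s) hab
    have hfp := frob_push Φ f (s := s) hab h
    set q : W.K := (card Φ X (a * s) : W.K) with hq
    have hq0 : q ≠ 0 := card_ne Φ _
    have hcq : (card Φ Y (b * s) : W.K) = q := by rw [hq, hcard]
    refine h5.image (W.push f) (c := (q ^ X.dim)⁻¹ * q ^ Y.dim)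
      (mul_ne_zero (inv_ne_zero (pow_ne_zero _ hq0)) (pow_ne_zero _ hq0)) ?_ ?_
    · intro y
      have e1 : (q ^ X.dim) • sb (frob Φ Y (b * s)) ((card Φ Y (b * s) : W.K) ^ j) (W.push f y) =
          (q ^ Y.dim) • W.push f (sb (frob Φ X (a * s)) (q ^ i) y) := by
        rw [sb_apply, sb_apply, smul_sub, hfp y, map_sub, smul_sub, map_smul, smul_smul,
          smul_smul, hcq, ← pow_add, ← pow_add, show X.dim + j = Y.dim + i by omega]
      rw [mul_smul, ← e1, smul_smul, inv_mul_cancel₀ (pow_ne_zero _ hq0), one_smul]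
    · intro y hy
      have := W.push_mem f hy
      rwa [show ((2 * i : ℕ) : ℤ) + 2 * ((Y.dim : ℤ) - X.dim) = ((2 * j : ℕ) : ℤ) by
        push_cast; omega, grZ_natCast] at this
  push_zero := by
    rintro X Y f i c ⟨s, hs, y, hy, h1, h2⟩ hij
    have hy' : W.push f c = 0 := by
      have hmem : c ∈ W.gr X (2 * i) := by
        rw [h2]
        have : ∀ (n : ℕ) (y : W.H X), y ∈ W.gr X (2 * i) →
            (sb (frob Φ X s) ((card Φ X s : W.K) ^ i) ^ n) y ∈ W.gr X (2 * i) := by
          intro n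
          induction n with
          | zero => intro y hy; exact hy
          | succ n ih =>
            intro y hy
            rw [pow_succ, Module.End.mul_apply]
            refine ih _ ?_
            rw [sb_apply]
            exact Submodule.sub_mem _ (W.map_mem _ hy) (Submodule.smul_mem _ _ hy)
        exact this _ _ hy
      have := W.push_mem f hmem
      rw [grZ_of_neg (by push_cast; omega)] at this
      exact (Submodule.mem_bot _).1 this
    exact hy'

theorem mem_deepFam {m j : ℕ} {x : W.H Z} : x ∈ (deepFam Φ m).T Z j ↔ Deep Φ m Z j x := Iff.rfl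

theorem deep_zero (j : ℕ) : (deepFam Φ 0).T Z j = tateSpace Φ Z j := by
  ext x
  rw [mem_deepFam, mem_tateSpace]
  constructor
  · rintro ⟨s, hs, y, hy, h1, h2⟩
    rw [pow_zero, Module.End.one_apply] at h2
    subst h2
    refine ⟨hy, s, hs, ?_⟩
    rw [zero_add, pow_one, sb_apply, sub_eq_zero] at h1
    rw [← card_pow]
    exact h1
  · rintro ⟨hx, s, hs, h⟩
    refine ⟨s, hs, x, hx, ?_, rfl⟩
    rw [zero_add, pow_one, sb_apply, sub_eq_zero, card_pow]
    exact h

theorem deep_succ_le (m j : ℕ) : (deepFam Φ (m + 1)).T Z j ≤ (deepFam Φ m).T Z j := by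
  rintro x ⟨s, hs, y, hy, h1, h2⟩
  refine ⟨s, hs, sb (frob Φ Z s) ((card Φ Z s : W.K) ^ j) y, ?_, ?_, ?_⟩
  · rw [sb_apply]
    exact Submodule.sub_mem _ (W.map_mem _ hy) (Submodule.smul_mem _ _ hy)
  · rw [← Module.End.mul_apply, ← pow_succ]
    exact h1
  · rw [← Module.End.mul_apply, ← pow_succ]
    exact h2

theorem deep_le {m n : ℕ} (h : m ≤ n) (j : ℕ) : (deepFam Φ n).T Z j ≤ (deepFam Φ m).T Z j := by
  induction n, h using Nat.le_induction with
  | base => exact le_rfl
  | succ n _ ih => exact (deep_succ_le Φ n j).trans ih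

/-- There are no Tate classes of large depth. -/
theorem deep_eq_bot {m : ℕ} (h : finrank W.K (W.H Z) ≤ m) (j : ℕ) : (deepFam Φ m).T Z j = ⊥ := by
  rw [eq_bot_iff]
  rintro x ⟨s, hs, y, hy, h1, h2⟩
  rw [Submodule.mem_bot, h2]
  have h3 : y ∈ LinearMap.ker (sb (frob Φ Z s) ((card Φ Z s : W.K) ^ j) ^ (m + 1)) := h1
  rw [Module.End.ker_pow_eq_ker_pow_finrank_of_le (h.trans (Nat.le_succ m)),
    ← Module.End.ker_pow_eq_ker_pow_finrank_of_le h] at h3
  exact h3

end Pool.Agent.Q56.NS
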