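import Pool.Agent.Y163.Defs
import Pool.Agent.W534.TateDefs
import Pool.Agent.W534.PoleB

/-!
The space of the Tate classes, and the error term.
-/

set_option autoImplicit false

open CategoryTheory AlgebraicGeometry

universe u v

namespace Pool.Agent.Q56.NS

open Pool.Agent.H914 Pool.Agent.W534 VarClass Obj WeilCohomology Module

variable {k : Type u} [Field k] {𝒱 : VarClass k} {ops : CycleOps 𝒱}
  {W : WeilCohomology.{u, v} ops} {p : ℕ}

/-- The space of the Tate classes of degree `2 j`: the classes of degree `2 j` on which the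
Frobenius endomorphism relative to some finite field, with `q` elements, acts as multiplication by
`q ^ j`. -/
def tateSpace (Φ : FrobSystem W p) (Z : 𝒱.Obj) (j : ℕ) : Submodule W.K (W.H Z) where
  carrier := {c | IsTate Φ Z j c}
  add_mem' := by
    rintro a b ⟨ha, s, hs, h1⟩ ⟨hb, t, ht, h2⟩
    refine ⟨Submodule.add_mem _ ha hb, s * t, Nat.mul_pos hs ht, ?_⟩
    rw [← card_pow] at h1 h2 ⊢
    have h3 := span_eig_mul Φ (Z := Z) h1 t
    have h4 := span_eig_mul' Φ (Z := Z) h2 s
    rw [frob_apply] at h3 h4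
    rw [map_add, h3, h4, smul_add]
  zero_mem' := ⟨Submodule.zero_mem _, 1, one_pos, by rw [map_zero, smul_zero]⟩
  smul_mem' := by
    rintro c a ⟨ha, s, hs, h1⟩
    exact ⟨Submodule.smul_mem _ _ ha, s, hs, by rw [map_smul, h1, smul_comm]⟩

/-- The explicit bound `(b / (2 n + 2)) ^ (1 / 2) + (n + 2) ^ (b ^ 2) (1 - b ^ (-2)) ^ (2 n + 2)`. -/
noncomputable def bound (b n : ℕ) : ℝ :=
  Real.sqrt (b / (2 * n + 2)) + (n + 2 : ℝ) ^ (b ^ 2) * (1 - 1 / (b : ℝ) ^ 2) ^ (2 * n + 2)

end Pool.Agent.Q56.NS
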