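import Pool.Agent.Q56.NS.Deep

/-!
Strict inclusions of systems of subspaces are strict for a positive proportion on all powers.
-/

set_option autoImplicit false
set_option linter.unusedSectionVars false

open CategoryTheory AlgebraicGeometry TensorProduct

universe u v

namespace Pool.Agent.Q56.NS

open Pool.Agent.H914 Pool.Agent.H447 Pool.Agent.W534 VarClass Obj WeilCohomology Module
  Pool.Agent.Y163

variable {k : Type u} [Field k] {𝒱 : VarClass k} {ops : CycleOps 𝒱}
  {W : WeilCohomology.{u, v} ops} {X Y Z A B : 𝒱.Obj} {p : ℕ}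

theorem span_mul (F : SFam W) {i j : ℕ} {c x : W.H Z} (hc : c ∈ spanCycles W Z i)
    (hx : x ∈ F.T Z j) : c * x ∈ F.T Z (i + j) := by
  induction hc using Submodule.span_induction with
  | mem c hc =>
    obtain ⟨r, hr, z, hz, rfl⟩ := hc
    obtain rfl : r = i := by exact_mod_cast hr
    exact F.cl_mul hz hx
  | zero => rw [zero_mul]; exact Submodule.zero_mem _
  | add a b _ _ ha hb => rw [add_mul]; exact Submodule.add_mem _ ha hb
  | smul a b _ hb => rw [smul_mul_assoc]; exact Submodule.smul_mem _ _ hb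

theorem finrank_T_iso (F : SFam W) (e : X ≅ Y) (j : ℕ) :
    finrank W.K (F.T X j) = finrank W.K (F.T Y j) := by
  have key : ∀ {X Y : 𝒱.Obj} (e : X ≅ Y), finrank W.K (F.T Y j) ≤ finrank W.K (F.T X j) := by
    intro X Y e
    refine LinearMap.finrank_le_finrank_of_injective
      (f := (W.map e.hom).toLinearMap.restrict (p := F.T Y j) (q := F.T X j)
        fun y hy => F.map e.hom hy) ?_
    rintro ⟨a, ha⟩ ⟨b, hb⟩ hab
    have h1 : W.map e.hom a = W.map e.hom b := congrArg Subtype.val hab
    have h2 := congrArg (W.map e.inv) h1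
    rw [← W.map_comp, ← W.map_comp, e.inv_hom_id, W.map_id, W.map_id] at h2
    exact Subtype.ext h2
  exact le_antisymm (key e.symm) (key e)

/-- **The gap.** -/
theorem gap_prod (F₁ F₂ : SFam W) (hle : ∀ Z j, F₁.T Z j ≤ F₂.T Z j) {i j : ℕ}
    (hB : B.dim = 2 * i) {x : W.H A} (hx : x ∈ F₂.T A j) (hx' : x ∉ F₁.T A j) :
    kRank W B i i + finrank W.K (F₁.T (B.prod A) (i + j)) ≤
      finrank W.K (F₂.T (B.prod A) (i + j)) := by
  set M := F₂.T (B.prod A) (i + j) with hM
  have hg : ∀ c ∈ spanCycles W B i, W.map (fst B A) c * W.map (snd B A) x ∈ M := fun c hc =>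
    span_mul F₂ (map_span (fst B A) hc) (F₂.map (snd B A) hx)
  let g₀ : W.H B →ₗ[W.K] W.H (B.prod A) :=
    (LinearMap.mulRight W.K (W.map (snd B A) x)) ∘ₗ (W.map (fst B A)).toLinearMap
  let g : spanCycles W B i →ₗ[W.K] M := g₀.restrict (fun c hc => hg c hc)
  let N : Submodule W.K M := (F₁.T (B.prod A) (i + j)).comap M.subtype
  have hN : finrank W.K N = finrank W.K (F₁.T (B.prod A) (i + j)) :=
    LinearEquiv.finrank_eq (Submodule.comapSubtypeEquivOfLe (hle _ _))
  let q : spanCycles W B i →ₗ[W.K] M ⧸ N := N.mkQ ∘ₗ g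
  have hker : LinearMap.ker q ≤ LinearMap.ker (pair W B i i) := by
    rintro ⟨c, hc⟩ h
    rw [LinearMap.mem_ker] at h ⊢
    have h1 : g ⟨c, hc⟩ ∈ N := (Submodule.Quotient.mk_eq_zero N).1 h
    have h2 : W.map (fst B A) c * W.map (snd B A) x ∈ F₁.T (B.prod A) (i + j) := h1
    apply LinearMap.ext
    rintro ⟨c', hc'⟩
    rw [pair_apply, LinearMap.zero_apply]
    by_contra h0
    apply hx'
    have h3 := span_mul F₁ (map_span (fst B A) hc') h2
    have h4 := F₁.push (snd B A) (q := j) h3 (by rw [dim_prod]; omega)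
    rw [← mul_assoc, ← map_mul, W.push_snd] at h4
    have h5 : W.tr B (c' * c) ≠ 0 := by
      rw [W.even_comm (span_gr hc')]
      exact h0
    have h6 := Submodule.smul_mem _ (W.tr B (c' * c))⁻¹ h4
    rwa [smul_smul, inv_mul_cancel₀ h5, one_smul] at h6
  have h1 := LinearMap.finrank_range_add_finrank_ker q
  have h2 := LinearMap.finrank_range_add_finrank_ker (pair W B i i)
  have h3 := Submodule.finrank_mono hker
  have h4 : finrank W.K (LinearMap.range q) ≤ finrank W.K (M ⧸ N) := Submodule.finrank_le _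
  have h5 := Submodule.finrank_quotient_add_finrank N
  rw [kRank]
  omega

theorem gap_sq (F₁ F₂ : SFam W) (hle : ∀ Z j, F₁.T Z j ≤ F₂.T Z j) {κ : ℕ}
    (hne : ¬ F₂.T (sq X κ) ((κ + 1) * X.dim) ≤ F₁.T (sq X κ) ((κ + 1) * X.dim)) (n : ℕ) :
    mrank W X n + finrank W.K (F₁.T (sq X (κ + n + 1)) ((κ + n + 1 + 1) * X.dim)) ≤
      finrank W.K (F₂.T (sq X (κ + n + 1)) ((κ + n + 1 + 1) * X.dim)) := by
  obtain ⟨x, hx, hx'⟩ := Set.not_subset.1 hne
  have e : sq X (κ + n + 1) ≅ (sq X n).prod (sq X κ) :=
    pwIso X (κ + n + 1) (κ + n + 1) ≪≫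
      eqToIso (by rw [show κ + n + 1 + 1 + (κ + n + 1) =
        n + 1 + n + 1 + (κ + 1 + κ) by ring]) ≪≫
      (pwIso X (n + 1 + n) (κ + 1 + κ)).symm ≪≫
      prodIso (pwIso X n n).symm (pwIso X κ κ).symm
  have h1 := gap_prod F₁ F₂ hle (B := sq X n) (i := (n + 1) * X.dim) (dim_sq X n) hx hx'
  rw [← finrank_T_iso F₁ e, ← finrank_T_iso F₂ e,
    show (n + 1) * X.dim + (κ + 1) * X.dim = (κ + n + 1 + 1) * X.dim by ring] at h1
  exact h1

/-- The kernels of the powers. -/
theorem finrank_ker_pow {K E : Type*} [Field K] [AddCommGroup E] [Module K E] [Module.Finite K E]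
    (f : Module.End K E) (m : ℕ) :
    finrank K (LinearMap.ker (f ^ m)) ≤ m * finrank K (LinearMap.ker f) := by
  induction m with
  | zero =>
    have : LinearMap.ker (f ^ 0) = ⊥ := by
      rw [pow_zero]
      exact LinearMap.ker_eq_bot.2 fun _ _ h => h
    rw [this, finrank_bot]
    exact Nat.zero_le _
  | succ m ih =>
    -- restriction of `f` to the kernel of `f ^ (m + 1)`
    let g : LinearMap.ker (f ^ (m + 1)) →ₗ[K] LinearMap.ker (f ^ m) :=
      f.restrict fun x hx => by
        rw [LinearMap.mem_ker] at hx ⊢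
        rwa [← Module.End.mul_apply, ← pow_succ]
    have h1 := LinearMap.finrank_range_add_finrank_ker g
    have h2 : finrank K (LinearMap.range g) ≤ finrank K (LinearMap.ker (f ^ m)) :=
      Submodule.finrank_le _
    have h3 : finrank K (LinearMap.ker g) ≤ finrank K (LinearMap.ker f) := by
      refine LinearMap.finrank_le_finrank_of_injective
        (f := (((LinearMap.ker (f ^ (m + 1))).subtype ∘ₗ (LinearMap.ker g).subtype).codRestrict
          (LinearMap.ker f) fun x => ?_)) ?_
      · have h4 := x.2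
        rw [LinearMap.mem_ker] at h4 ⊢
        exact congrArg Subtype.val h4
      · intro a b hab
        have h5 : (((a : LinearMap.ker (f ^ (m + 1))) : E)) =
          ((b : LinearMap.ker (f ^ (m + 1))) : E) :=
          congrArg (fun z : LinearMap.ker f => (z : E)) hab
        exact Subtype.ext (Subtype.ext h5)
    rw [add_mul, one_mul]
    omega

variable {Φ : FrobSystem W p}

/-- If there are no Tate classes of depth at least `m`, then the generalised Tate classes are at
most `m` times as many as the Tate classes. -/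
theorem genU_le_of_deep {m j : ℕ} (h : (deepFam Φ m).T Z j = ⊥) :
    finrank W.K (genU Φ Z j) ≤ m * finrank W.K (tateSpace Φ Z j) := by
  obtain ⟨hs, -⟩ := (exists_stable Φ Z j).choose_spec
  set s := (exists_stable Φ Z j).choose with hsdef
  have h1 : genTate Φ Z s j = genU Φ Z j := genU_eq Φ hs (dvd_refl _)
  set A := sb (frob Φ Z s) ((card Φ Z s : W.K) ^ j) with hA
  have hgr : ∀ (n : ℕ), ∀ y ∈ W.gr Z (2 * j), (A ^ n) y ∈ W.gr Z (2 * j) := by
    intro n
    induction n with
    | zero => intro y hy; exact hy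
    | succ n ih =>
      intro y hy
      rw [pow_succ, Module.End.mul_apply]
      refine ih _ ?_
      rw [hA, sb_apply]
      exact Submodule.sub_mem _ (W.map_mem _ hy) (Submodule.smul_mem _ _ hy)
  let f : Module.End W.K (W.gr Z (2 * j)) := A.restrict fun y hy => by
    have := hgr 1 y hy
    rwa [pow_one] at this
  have hf : ∀ (n : ℕ) (y : W.gr Z (2 * j)), (((f ^ n) y : W.gr Z (2 * j)) : W.H Z) =
      (A ^ n) y := by
    intro n
    induction n with
    | zero => intro y; rfl
    | succ n ih =>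
      intro y
      rw [pow_succ, pow_succ, Module.End.mul_apply, Module.End.mul_apply, ih]
      rfl
  -- the generalised eigenvectors are killed by the `m`-th power
  have h2 : ∀ n : ℕ, ∀ y ∈ W.gr Z (2 * j), (A ^ n) y = 0 → (A ^ m) y = 0 := by
    intro n
    induction n with
    | zero =>
      intro y _ hy
      rw [pow_zero, Module.End.one_apply] at hy
      rw [hy, map_zero]
    | succ n ih =>
      intro y hy h0
      by_cases hnm : n + 1 ≤ m
      · obtain ⟨r, rfl⟩ := Nat.exists_eq_add_of_le hnm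
        rw [add_comm, pow_add, Module.End.mul_apply, h0, map_zero]
      · apply ih y hy
        obtain ⟨r, rfl⟩ : ∃ r, n = m + r := Nat.exists_eq_add_of_le (by omega)
        have h3 : (A ^ (m + r)) y ∈ (deepFam Φ m).T Z j := by
          refine ⟨s, hs, (A ^ r) y, hgr r y hy, ?_, ?_⟩
          · rw [← hA, ← Module.End.mul_apply, ← pow_add, show m + 1 + r = m + r + 1 by ring]
            exact h0
          · rw [← hA, ← Module.End.mul_apply, ← pow_add]
        rw [h] at h3
        exact (Submodule.mem_bot _).1 h3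
  have h3 : finrank W.K (genTate Φ Z s j) ≤ finrank W.K (LinearMap.ker (f ^ m)) := by
    refine LinearMap.finrank_le_finrank_of_injective
      (f := LinearMap.codRestrict (LinearMap.ker (f ^ m))
        (Submodule.inclusion (show genTate Φ Z s j ≤ W.gr Z (2 * j) from fun x hx => hx.2))
        fun x => ?_) ?_
    · obtain ⟨⟨n, hn⟩, hx⟩ := (mem_genTate Φ).1 x.2
      rw [LinearMap.mem_ker]
      apply Subtype.ext
      rw [hf]
      exact h2 n _ hx hn
    · intro a b hab
      have h4 : ((Submodule.inclusion (show genTate Φ Z s j ≤ W.gr Z (2 * j) from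
        fun x hx => hx.2)) a) = (Submodule.inclusion (show genTate Φ Z s j ≤ W.gr Z (2 * j) from
        fun x hx => hx.2)) b :=
        congrArg (fun z : LinearMap.ker (f ^ m) => (z : W.gr Z (2 * j))) hab
      have h5 : (a : W.H Z) = (b : W.H Z) := congrArg (fun z : W.gr Z (2 * j) => (z : W.H Z)) h4
      exact Subtype.ext h5
  have h4 : finrank W.K (LinearMap.ker f) ≤ finrank W.K (tateSpace Φ Z j) := by
    refine LinearMap.finrank_le_finrank_of_injective
      (f := LinearMap.codRestrict (tateSpace Φ Z j)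
        ((W.gr Z (2 * j)).subtype ∘ₗ (LinearMap.ker f).subtype) fun x => ?_) ?_
    · refine ⟨x.1.2, s, hs, ?_⟩
      have h5 : A (x.1 : W.H Z) = 0 := congrArg Subtype.val (LinearMap.mem_ker.1 x.2)
      rw [hA, sb_apply, sub_eq_zero] at h5
      rw [← card_pow]
      exact h5
    · intro a b hab
      have h5 : (((a : W.gr Z (2 * j)) : W.H Z)) = ((b : W.gr Z (2 * j)) : W.H Z) :=
        congrArg (fun z : tateSpace Φ Z j => (z : W.H Z)) hab
      exact Subtype.ext (Subtype.ext h5)
  rw [← h1]
  exact h3.trans ((finrank_ker_pow f m).trans (Nat.mul_le_mul_left _ h4))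

end Pool.Agent.Q56.NS
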