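import Pool.Agent.Q56.NS.Pow
import Pool.Agent.Y163.TateC

/-!
The Frobenius endomorphism on the squares of the powers of a variety.
-/

set_option autoImplicit false
set_option linter.unusedSectionVars false

open CategoryTheory AlgebraicGeometry TensorProduct

universe u v

namespace Pool.Agent.Q56.NS

open Pool.Agent.H914 Pool.Agent.H447 Pool.Agent.W534 VarClass Obj WeilCohomology Module
  Pool.Agent.Y163

/-! ### Linear algebra -/

section lin

variable {K : Type u} [Field K] {V : Type v} [AddCommGroup V] [Module K V]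

theorem IsPow.congr {F : Module.End K V} {N : ℕ} {M : Type v} [AddCommGroup M] [Module K M]
    {G : Module.End K M} (h : IsPow F N M G) {M₂ : Type v} [AddCommGroup M₂] [Module K M₂]
    {G₂ : Module.End K M₂} (e : M ≃ₗ[K] M₂) (he : ∀ x, e (G x) = G₂ (e x)) :
    IsPow F N M₂ G₂ := by
  cases h with
  | zero M e₀ =>
    have h1 : G₂ = 1 := by
      ext x
      obtain ⟨y, rfl⟩ := e.surjective x
      rw [← he]
      rfl
    rw [h1]
    exact IsPow.zero M₂ (e.symm.trans e₀)
  | succ N M' G' M G h e₀ he₀ =>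
    refine IsPow.succ N M' G' M₂ G₂ h (e₀.trans e) fun x => ?_
    rw [LinearEquiv.trans_apply, LinearEquiv.trans_apply, he₀, he]

theorem IsPow.tensor {F : Module.End K V} {N : ℕ} {M : Type v} [AddCommGroup M] [Module K M]
    {G : Module.End K M} (h : IsPow F N M G) {N' : ℕ} {M' : Type v} [AddCommGroup M']
    [Module K M'] {G' : Module.End K M'} (h' : IsPow F N' M' G') :
    IsPow F (N + N') (M ⊗[K] M') (TensorProduct.map G G') := by
  induction h with
  | zero M e =>
    rw [zero_add]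
    refine h'.congr ((TensorProduct.lid K M').symm.trans
      (TensorProduct.congr e.symm (LinearEquiv.refl K M'))) fun x => ?_
    rw [LinearEquiv.trans_apply, LinearEquiv.trans_apply, TensorProduct.lid_symm_apply,
      TensorProduct.lid_symm_apply, TensorProduct.congr_tmul, TensorProduct.congr_tmul,
      TensorProduct.map_tmul]
    rfl
  | succ N M₁ G₁ M G h e he ih =>
    rw [Nat.add_right_comm]
    refine IsPow.succ (N + N') (M₁ ⊗[K] M') (TensorProduct.map G₁ G') _ _ ih
      ((TensorProduct.assoc K V M₁ M').symm.trans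
        (TensorProduct.congr e (LinearEquiv.refl K M'))) fun x => ?_
    have hx : ∀ y : (V ⊗[K] M₁) ⊗[K] M', TensorProduct.congr e (LinearEquiv.refl K M')
        (TensorProduct.map (TensorProduct.map F G₁) G' y) =
        TensorProduct.map G G' (TensorProduct.congr e (LinearEquiv.refl K M') y) := by
      intro y
      induction y using TensorProduct.induction_on with
      | zero => simp only [map_zero]
      | tmul a b =>
        rw [TensorProduct.map_tmul, TensorProduct.congr_tmul, TensorProduct.congr_tmul,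
          TensorProduct.map_tmul, he]
        rfl
      | add a b ha hb => rw [map_add, map_add, ha, hb, map_add, map_add]
    have ha : ∀ y : V ⊗[K] (M₁ ⊗[K] M'), (TensorProduct.assoc K V M₁ M').symm
        (TensorProduct.map F (TensorProduct.map G₁ G') y) =
        TensorProduct.map (TensorProduct.map F G₁) G'
          ((TensorProduct.assoc K V M₁ M').symm y) := by
      intro y
      induction y using TensorProduct.induction_on with
      | zero => simp only [map_zero]
      | tmul a b =>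
        induction b using TensorProduct.induction_on with
        | zero => simp only [TensorProduct.tmul_zero, map_zero]
        | tmul b c =>
          rw [TensorProduct.map_tmul, TensorProduct.map_tmul, TensorProduct.assoc_symm_tmul,
            TensorProduct.assoc_symm_tmul, TensorProduct.map_tmul, TensorProduct.map_tmul]
        | add b c hb hc => rw [TensorProduct.tmul_add, map_add, map_add, hb, hc, map_add, map_add]
      | add a b ha hb => rw [map_add, map_add, ha, hb, map_add, map_add]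
    rw [LinearEquiv.trans_apply, LinearEquiv.trans_apply, ha, hx]

theorem isPow_one (F : Module.End K V) (hK : ∃ (M : Type v) (_ : AddCommGroup M) (_ : Module K M),
    Nonempty (M ≃ₗ[K] K)) : IsPow F 1 V F := by
  obtain ⟨M, _, _, ⟨e⟩⟩ := hK
  refine IsPow.succ 0 M 1 V F (IsPow.zero M e)
    ((TensorProduct.congr (LinearEquiv.refl K V) e).trans (TensorProduct.rid K V)) fun x => ?_
  induction x using TensorProduct.induction_on with
  | zero => simp only [map_zero]
  | tmul a b =>
    rw [TensorProduct.map_tmul, LinearEquiv.trans_apply, LinearEquiv.trans_apply,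
      TensorProduct.congr_tmul, TensorProduct.congr_tmul, TensorProduct.rid_tmul,
      TensorProduct.rid_tmul]
    change e b • F a = F (e b • a)
    rw [map_smul]
  | add a b ha hb => rw [map_add, map_add, ha, hb, map_add, map_add]

/-- The powers of an operator which is not semisimple. -/
theorem NotSS.pow [CharZero K] {F : Module.End K V} (hF : Function.Injective F) (h : NotSS F)
    {s : ℕ} (hs : 0 < s) : NotSS (F ^ s) := by
  obtain ⟨α, v, h1, h2⟩ := h
  set w := sb F α v with hw
  have hFv : F v = α • v + w := by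
    rw [hw, sb_apply]
    abel
  have hFw : F w = α • w := by
    rw [sb_apply] at h1
    exact sub_eq_zero.1 h1
  have hα : α ≠ 0 := by
    rintro rfl
    rw [zero_smul] at hFw
    exact h2 (hF (hFw.trans (map_zero F).symm))
  have h3 : ∀ s : ℕ, (F ^ s) w = α ^ s • w := by
    intro s
    induction s with
    | zero => simp
    | succ s ih => rw [pow_succ', Module.End.mul_apply, ih, map_smul, hFw, smul_smul, pow_succ]
  have h4 : ∀ s : ℕ, (F ^ (s + 1)) v = α ^ (s + 1) • v + ((s + 1 : ℕ) * α ^ s : K) • w := by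
    intro s
    induction s with
    | zero => simp [hFv]
    | succ s ih =>
      rw [pow_succ', Module.End.mul_apply, ih, map_add, map_smul, map_smul, hFv, hFw, smul_add,
        smul_smul, smul_smul, add_assoc, ← add_smul, ← pow_succ]
      congr 2
      push_cast
      ring
  obtain ⟨s, rfl⟩ := Nat.exists_eq_succ_of_ne_zero hs.ne'
  have h5 : sb (F ^ (s + 1)) (α ^ (s + 1)) v = ((s + 1 : ℕ) * α ^ s : K) • w := by
    rw [sb_apply, h4]
    abel
  refine ⟨α ^ (s + 1), v, ?_, ?_⟩
  · change sb (F ^ (s + 1)) (α ^ (s + 1)) (sb (F ^ (s + 1)) (α ^ (s + 1)) v) = 0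
    rw [h5, map_smul, sb_apply, h3, sub_self, smul_zero]
  · change sb (F ^ (s + 1)) (α ^ (s + 1)) v ≠ 0
    rw [h5]
    refine smul_ne_zero (mul_ne_zero ?_ (pow_ne_zero _ hα)) h2
    exact Nat.cast_ne_zero.2 (Nat.succ_ne_zero s)

end lin

/-! ### Frobenius endomorphisms -/

variable {k : Type u} [Field k] {𝒱 : VarClass k} {ops : CycleOps 𝒱}
  {W : WeilCohomology.{u, v} ops} {X Y Z : 𝒱.Obj} {p : ℕ} (Φ : FrobSystem W p)

theorem frob_inj (Z : 𝒱.Obj) (s : ℕ) : Function.Injective (frob Φ Z s) := by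
  have := frob_pow_injective Φ (Z := Z) s 1
  rwa [pow_one] at this

/-- The Frobenius endomorphism of a product. -/
theorem frob_prod (A B : 𝒱.Obj) : ∃ t a b, 0 < t ∧ 0 < a ∧ 0 < b ∧ ∀ r,
    a * r * Φ.e A = t * r * Φ.e (A.prod B) ∧ b * r * Φ.e B = t * r * Φ.e (A.prod B) ∧
    ∀ x, kappa W A B (TensorProduct.map (frob Φ A (a * r)) (frob Φ B (b * r)) x) =
      frob Φ (A.prod B) (t * r) (kappa W A B x) := by
  obtain ⟨a₁, b₁, ha₁, hb₁, h1, h1'⟩ := frob_comm (W := W) Φ (fst A B)
  obtain ⟨a₂, b₂, ha₂, hb₂, h2, h2'⟩ := frob_comm (W := W) Φ (snd A B)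
  refine ⟨a₁ * a₂, b₁ * a₂, b₂ * a₁, Nat.mul_pos ha₁ ha₂, Nat.mul_pos hb₁ ha₂,
    Nat.mul_pos hb₂ ha₁, fun r => ⟨?_, ?_, ?_⟩⟩
  · calc b₁ * a₂ * r * Φ.e A = (b₁ * Φ.e A) * a₂ * r := by ring
      _ = a₁ * a₂ * r * Φ.e (A.prod B) := by rw [← h1]; ring
  · calc b₂ * a₁ * r * Φ.e B = (b₂ * Φ.e B) * a₁ * r := by ring
      _ = a₁ * a₂ * r * Φ.e (A.prod B) := by rw [← h2]; ring
  · intro x
    induction x using TensorProduct.induction_on with
    | zero => simp only [map_zero]
    | tmul x y =>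
      rw [TensorProduct.map_tmul, kappa_tmul, kappa_tmul, frob_apply, frob_apply, frob_apply,
        map_mul]
      congr 1
      · rw [mul_assoc a₁, h1', mul_assoc b₁]
      · rw [mul_comm a₁, mul_assoc a₂, h2', mul_assoc b₂]
    | add x y hx hy => rw [map_add, map_add, hx, hy, map_add, map_add]

theorem exists_line (K : Type v) [Field K] : ∃ (M : Type v) (_ : AddCommGroup M) (_ : Module K M),
    Nonempty (M ≃ₗ[K] K) := ⟨K, inferInstance, inferInstance, ⟨LinearEquiv.refl K K⟩⟩

theorem isPow_pw (X : 𝒱.Obj) (n : ℕ) : ∃ t, 0 < t ∧ ∀ r, 0 < r → ∃ s, 0 < s ∧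
    s * Φ.e X = t * r * Φ.e (pw X n) ∧
    IsPow (frob Φ X s) (n + 1) (W.H (pw X n)) (frob Φ (pw X n) (t * r)) := by
  induction n with
  | zero =>
    refine ⟨1, one_pos, fun r hr => ⟨r, hr, ?_, ?_⟩⟩
    · rw [one_mul]; rfl
    · rw [one_mul]
      exact isPow_one _ (exists_line W.K)
  | succ n ih =>
    obtain ⟨t₁, ht₁, ih⟩ := ih
    obtain ⟨t, a, b, ht, ha, hb, h⟩ := frob_prod Φ X (pw X n)
    refine ⟨t * t₁, Nat.mul_pos ht ht₁, fun r hr => ?_⟩
    obtain ⟨s, hs, h1, h2⟩ := ih (b * r) (Nat.mul_pos hb hr)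
    obtain ⟨h3, h4, h5⟩ := h (t₁ * r)
    have h6 : t₁ * (b * r) = b * (t₁ * r) := by ring
    rw [h6] at h1 h2
    have h7 : s = a * (t₁ * r) := by
      have h8 : s * Φ.e X = a * (t₁ * r) * Φ.e X := by rw [h1, h4, h3]
      exact Nat.eq_of_mul_eq_mul_right (Φ.e_pos X) h8
    refine ⟨s, hs, ?_, ?_⟩
    · rw [h1, h4, mul_assoc t t₁]
      rfl
    · rw [mul_assoc t t₁]
      refine IsPow.succ (n + 1) _ _ _ _ h2 (kappa W X (pw X n)) fun x => ?_
      rw [h7]
      exact h5 x

theorem isPow_sq (X : 𝒱.Obj) (n : ℕ) : ∃ t, 0 < t ∧ ∀ r, 0 < r → ∃ s, 0 < s ∧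
    IsPow (frob Φ X s) (2 * n + 2) (W.H (sq X n)) (frob Φ (sq X n) (t * r)) := by
  obtain ⟨t₁, ht₁, h⟩ := isPow_pw Φ X n
  obtain ⟨t, a, b, ht, ha, hb, h'⟩ := frob_prod Φ (pw X n) (pw X n)
  refine ⟨t * t₁, Nat.mul_pos ht ht₁, fun r hr => ?_⟩
  obtain ⟨s, hs, h1, h2⟩ := h (a * r) (Nat.mul_pos ha hr)
  obtain ⟨s', hs', h1', h2'⟩ := h (b * r) (Nat.mul_pos hb hr)
  obtain ⟨h3, h4, h5⟩ := h' (t₁ * r)
  have h6 : t₁ * (a * r) = a * (t₁ * r) := by ring
  have h6' : t₁ * (b * r) = b * (t₁ * r) := by ring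
  rw [h6] at h1 h2
  rw [h6'] at h1' h2'
  have h7 : s = s' := by
    have h8 : s * Φ.e X = s' * Φ.e X := by rw [h1, h1', h3, h4]
    exact Nat.eq_of_mul_eq_mul_right (Φ.e_pos X) h8
  subst h7
  refine ⟨s, hs, ?_⟩
  rw [mul_assoc t t₁]
  have h9 := (h2.tensor h2').congr (kappa W (pw X n) (pw X n)) h5
  rwa [show n + 1 + (n + 1) = 2 * n + 2 by ring] at h9

/-! ### Purity -/

theorem frob_isHom (Z : 𝒱.Obj) (s : ℕ) : IsHom (W.gr Z) 0 (frob Φ Z s) := by
  intro i a ha
  rw [add_zero]
  by_cases hi : 0 ≤ i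
  · lift i to ℕ using hi
    rw [grZ_natCast] at ha ⊢
    exact W.map_mem _ ha
  · rw [grZ_of_neg (by omega)] at ha ⊢
    rw [Submodule.mem_bot] at ha ⊢
    rw [ha, map_zero]

/-- The generalised eigenspace for `q ^ j` is contained in the cohomology of degree `2 j`. -/
theorem gd_frob (hp : 1 < p) (σ : W.K →+* ℂ) (hRH : RiemannHyp Φ σ Z) {s : ℕ} (hs : 0 < s)
    (j : ℕ) : gd (frob Φ Z s) ((card Φ Z s : W.K) ^ j) = finrank W.K (genTate Φ Z s j) := by
  have hone : 1 < card Φ Z s := Nat.one_lt_pow (Nat.mul_pos (Φ.e_pos Z) hs).ne' hp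
  set μ : W.K := (card Φ Z s : W.K) ^ j with hμ
  -- no eigenvectors in the other degrees
  have h1 : ∀ i, i ≠ 2 * j → ∀ x ∈ W.gr Z i, frob Φ Z s x = μ • x → x = 0 := by
    intro i hi x hx hFx
    by_contra hx0
    have h2 : (frobOn Φ Z s i).HasEigenvalue μ := by
      refine Module.End.hasEigenvalue_of_hasEigenvector (x := ⟨x, hx⟩) ⟨?_, ?_⟩
      · rw [Module.End.mem_eigenspace_iff]
        exact Subtype.ext hFx
      · exact fun h => hx0 (congrArg Subtype.val h)
    have h3 : (frobOn Φ Z s i).charpoly.IsRoot μ :=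
      (Module.End.hasEigenvalue_iff_isRoot_charpoly _ _).1 h2
    have h4 : (frobPoly Φ σ Z s i).IsRoot (σ μ) := by
      rw [frobPoly_eq]
      exact h3.map
    have h5 := hRH s hs i _ h4
    rw [hμ, map_pow, map_natCast, norm_pow, Complex.norm_natCast, ← pow_mul] at h5
    have h6 : card Φ Z s ^ (j * 2) = card Φ Z s ^ i := by exact_mod_cast h5
    have h7 : j * 2 = i := Nat.pow_right_injective hone h6
    omega
  -- no generalised eigenvectors
  have h2 : ∀ i, i ≠ 2 * j → ∀ n : ℕ, ∀ x ∈ W.gr Z i, (sb (frob Φ Z s) μ ^ n) x = 0 → x = 0 := by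
    intro i hi n
    induction n with
    | zero => intro x _ h; exact h
    | succ n ih =>
      intro x hx h
      have hx' : sb (frob Φ Z s) μ x ∈ W.gr Z i := by
        rw [sb_apply]
        exact Submodule.sub_mem _ (W.map_mem _ hx) (Submodule.smul_mem _ _ hx)
      rw [pow_succ, Module.End.mul_apply] at h
      have h3 := ih _ hx' h
      rw [sb_apply, sub_eq_zero] at h3
      exact h1 i hi x hx h3
  have h3 : ∀ n : ℕ, ∀ x, (sb (frob Φ Z s) μ ^ n) x = 0 → x ∈ W.gr Z (2 * j) := by
    intro n x hx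
    have hN : ∀ i, 2 * Z.dim + 1 ≤ i → W.gr Z i = ⊥ := fun i hi => W.gr_eq_bot Z i (by omega)
    have h4 : x = ∑ i ∈ Finset.range (2 * Z.dim + 1), proj (W.isInternal Z) i x := by
      have h5 := congrArg (fun f : Module.End W.K (W.H Z) => f x) (sum_proj (W.isInternal Z) hN)
      simp only [LinearMap.sum_apply, Module.End.one_apply] at h5
      exact h5.symm
    have h5 : ∀ i, (sb (frob Φ Z s) μ ^ n) (proj (W.isInternal Z) i x) = 0 := by
      intro i
      have h6 := (frob_isHom Φ Z s).proj_comm (W.isInternal Z) i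
      have h7 : ∀ y, proj (W.isInternal Z) i (frob Φ Z s y) =
          frob Φ Z s (proj (W.isInternal Z) i y) := fun y =>
        congrArg (fun f : Module.End W.K (W.H Z) => f y) h6
      rw [← pow_map (sb_map h7 μ), hx, map_zero]
    rw [h4]
    refine Submodule.sum_mem _ fun i _ => ?_
    by_cases hi : i = 2 * j
    · rw [← hi]
      exact proj_mem _ _ _
    · rw [h2 i hi n _ (proj_mem _ _ _) (h5 i)]
      exact Submodule.zero_mem _
  have h4 : genTate Φ Z s j = LinearMap.ker (sb (frob Φ Z s) μ ^ finrank W.K (W.H Z)) := by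
    ext x
    rw [mem_genTate, LinearMap.mem_ker]
    constructor
    · rintro ⟨⟨n, hn⟩, -⟩
      have h5 : x ∈ LinearMap.ker (sb (frob Φ Z s) μ ^ n) := hn
      exact Module.End.ker_pow_le_ker_pow_finrank _ _ h5
    · intro h
      exact ⟨⟨_, h⟩, h3 _ x h⟩
  rw [gd, kd, h4]

end Pool.Agent.Q56.NS
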