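import Mathlib

/-!
Dimensions of the kernels of the powers of `G - β`, and their behaviour in exact sequences and in
tensor products with a Jordan block of size two.
-/

set_option autoImplicit false
set_option linter.unusedSectionVars false

open Module LinearMap

namespace Pool.Agent.Q56.NS

variable {K : Type*} [Field K]
variable {E E' E'' : Type*} [AddCommGroup E] [Module K E] [AddCommGroup E'] [Module K E']
  [AddCommGroup E''] [Module K E'']

/-- the operator `G - β` -/
def sb (G : Module.End K E) (β : K) : Module.End K E := G - β • (1 : Module.End K E)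

theorem sb_apply (G : Module.End K E) (β : K) (x : E) : sb G β x = G x - β • x := rfl

/-- the dimension of the kernel of `(G - β) ^ k` -/
noncomputable def kd (G : Module.End K E) (β : K) (k : ℕ) : ℕ :=
  finrank K (ker (sb G β ^ k))

theorem kd_zero (G : Module.End K E) (β : K) : kd G β 0 = 0 := by
  rw [kd, pow_zero]
  have : ker (1 : Module.End K E) = ⊥ := ker_eq_bot.2 fun _ _ h => h
  rw [this, finrank_bot]

/-- the dimension of the generalised eigenspace -/
noncomputable def gd (G : Module.End K E) (β : K) : ℕ := kd G β (finrank K E)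

theorem pow_map {A : Module.End K E} {A' : Module.End K E'} {i : E' →ₗ[K] E}
    (h : ∀ x, i (A' x) = A (i x)) (k : ℕ) (x : E') : i ((A' ^ k) x) = (A ^ k) (i x) := by
  induction k generalizing x with
  | zero => rfl
  | succ k ih => rw [pow_succ, pow_succ, Module.End.mul_apply, Module.End.mul_apply, ih, h]

theorem sb_map {G : Module.End K E} {G' : Module.End K E'} {i : E' →ₗ[K] E}
    (h : ∀ x, i (G' x) = G (i x)) (β : K) (x : E') : i (sb G' β x) = sb G β (i x) := by
  rw [sb_apply, sb_apply, map_sub, map_smul, h]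

theorem kd_mono [Module.Finite K E] (G : Module.End K E) (β : K) {k l : ℕ} (h : k ≤ l) :
    kd G β k ≤ kd G β l := by
  refine Submodule.finrank_mono fun x hx => ?_
  rw [mem_ker] at hx ⊢
  obtain ⟨m, rfl⟩ := Nat.exists_eq_add_of_le h
  rw [add_comm, pow_add, Module.End.mul_apply, hx, map_zero]

theorem kd_eq_gd [Module.Finite K E] (G : Module.End K E) (β : K) {k : ℕ} (h : finrank K E ≤ k) :
    kd G β k = gd G β := by
  rw [gd, kd, kd, Module.End.ker_pow_eq_ker_pow_finrank_of_le h]

theorem kd_le_gd [Module.Finite K E] (G : Module.End K E) (β : K) (k : ℕ) :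
    kd G β k ≤ gd G β := by
  rw [← kd_eq_gd G β (le_max_left (finrank K E) k)]
  exact kd_mono G β (le_max_right _ _)

/-- Subadditivity in exact sequences. -/
theorem kd_le_add [Module.Finite K E] [Module.Finite K E'] [Module.Finite K E'']
    {G : Module.End K E} {G' : Module.End K E'}
    {G'' : Module.End K E''} {i : E' →ₗ[K] E} {p : E →ₗ[K] E''} (hi : Function.Injective i)
    (hp : ∀ x, p x = 0 → ∃ y, i y = x) (hG' : ∀ x, i (G' x) = G (i x))
    (hG'' : ∀ x, p (G x) = G'' (p x)) (β : K) (k : ℕ) :
    kd G β k ≤ kd G' β k + kd G'' β k := by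
  have h1 : ∀ x ∈ ker (sb G β ^ k), p x ∈ ker (sb G'' β ^ k) := by
    intro x hx
    rw [mem_ker] at hx ⊢
    rw [← pow_map (sb_map hG'' β) k, hx, map_zero]
  have h2 : ∀ y ∈ ker (sb G' β ^ k), i y ∈ ker (sb G β ^ k) := by
    intro x hx
    rw [mem_ker] at hx ⊢
    rw [← pow_map (sb_map hG' β) k, hx, map_zero]
  set q := p.restrict h1 with hq
  set r := i.restrict h2 with hr
  have h3 := q.finrank_range_add_finrank_ker
  have h4 : finrank K (range q) ≤ kd G'' β k := Submodule.finrank_le _
  have h5 : ker q ≤ range r := by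
    rintro ⟨x, hx⟩ hx0
    have hx1 : p x = 0 := congrArg Subtype.val hx0
    obtain ⟨y, rfl⟩ := hp x hx1
    have hy : y ∈ ker (sb G' β ^ k) := by
      rw [mem_ker] at hx ⊢
      rw [← pow_map (sb_map hG' β) k] at hx
      exact hi (hx.trans (map_zero i).symm)
    exact ⟨⟨y, hy⟩, rfl⟩
  have h6 : finrank K (ker q) ≤ kd G' β k :=
    (Submodule.finrank_mono h5).trans (LinearMap.finrank_range_le r)
  rw [kd]
  omega

/-- Additivity of the dimensions of the generalised eigenspaces. -/
theorem gd_add_le [Module.Finite K E] [Module.Finite K E'] [Module.Finite K E'']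
    {G : Module.End K E} {G' : Module.End K E'}
    {G'' : Module.End K E''} {i : E' →ₗ[K] E} {p : E →ₗ[K] E''} (hi : Function.Injective i)
    (hp : ∀ x, p x = 0 → ∃ y, i y = x) (hpi : ∀ y, p (i y) = 0) (hps : Function.Surjective p)
    (hG' : ∀ x, i (G' x) = G (i x))
    (hG'' : ∀ x, p (G x) = G'' (p x)) (β : K) :
    gd G' β + gd G'' β ≤ gd G β := by
  set k := finrank K E' + finrank K E'' with hk
  set A := sb G β with hA
  set A' := sb G' β with hA'
  set A'' := sb G'' β with hA''
  have hdim : finrank K E = finrank K E' + finrank K E'' := by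
    have h1 := p.finrank_range_add_finrank_ker
    have h2 : ker p = range i := by
      ext x
      exact ⟨fun h => hp x h, fun ⟨y, hy⟩ => hy ▸ hpi y⟩
    rw [h2, LinearMap.finrank_range_of_inj hi, LinearMap.range_eq_top.2 hps, finrank_top] at h1
    omega
  -- the range of `A ^ (2 k)`
  have h1 : ∀ x ∈ range (A ^ (k + k)), p x ∈ range (A'' ^ (k + k)) := by
    rintro _ ⟨x, rfl⟩
    exact ⟨p x, (pow_map (sb_map hG'' β) _ x).symm⟩
  set q := p.restrict h1 with hq
  have h3 := q.finrank_range_add_finrank_ker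
  have h4 : finrank K (range q) ≤ finrank K (range (A'' ^ (k + k))) := Submodule.finrank_le _
  have h5 : finrank K (ker q) ≤ finrank K (range (A' ^ k)) := by
    have h6 : (ker q).map (range (A ^ (k + k))).subtype ≤ (range (A' ^ k)).map i := by
      rintro _ ⟨⟨_, x, rfl⟩, hx0, rfl⟩
      have hx1 : p ((A ^ (k + k)) x) = 0 := congrArg Subtype.val hx0
      rw [pow_map (sb_map hG'' β)] at hx1
      have hx2 : (A'' ^ k) (p x) = 0 := by
        have h7 : ker (A'' ^ (k + k)) = ker (A'' ^ k) := by
          rw [Module.End.ker_pow_eq_ker_pow_finrank_of_le (by omega),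
            Module.End.ker_pow_eq_ker_pow_finrank_of_le (m := k) (by omega)]
        have h8 : p x ∈ ker (A'' ^ (k + k)) := hx1
        rw [h7] at h8
        exact h8
      rw [← pow_map (sb_map hG'' β)] at hx2
      obtain ⟨y, hy⟩ := hp _ hx2
      refine ⟨(A' ^ k) y, ⟨y, rfl⟩, ?_⟩
      rw [pow_map (sb_map hG' β), hy, ← Module.End.mul_apply, ← pow_add]
      rfl
    have h7 := Submodule.finrank_mono h6
    rw [Submodule.finrank_map_subtype_eq] at h7
    exact h7.trans (Submodule.finrank_map_le _ _)
  have hE := (A ^ (k + k)).finrank_range_add_finrank_ker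
  have hE' := (A' ^ k).finrank_range_add_finrank_ker
  have hE'' := (A'' ^ (k + k)).finrank_range_add_finrank_ker
  rw [← kd_eq_gd G β (k := k + k) (by omega), ← kd_eq_gd G' β (k := k) (by omega),
    ← kd_eq_gd G'' β (k := k + k) (by omega), kd, kd, kd, ← hA, ← hA', ← hA'']
  omega

theorem kd_congr {G : Module.End K E} {G' : Module.End K E'} (e : E' ≃ₗ[K] E)
    (h : ∀ x, e (G' x) = G (e x)) (β : K) (k : ℕ) : kd G β k = kd G' β k := by
  have h1 : ker (sb G β ^ k) = (ker (sb G' β ^ k)).map e.toLinearMap := by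
    ext x
    rw [Submodule.mem_map]
    constructor
    · intro hx
      refine ⟨e.symm x, ?_, e.apply_symm_apply x⟩
      rw [mem_ker] at hx ⊢
      apply e.injective
      rw [map_zero]
      have := pow_map (i := e.toLinearMap) (sb_map (i := e.toLinearMap) h β) k (e.symm x)
      refine this.trans ?_
      change (sb G β ^ k) (e (e.symm x)) = 0
      rw [e.apply_symm_apply, hx]
    · rintro ⟨y, hy, rfl⟩
      rw [mem_ker] at hy ⊢
      have := pow_map (i := e.toLinearMap) (sb_map (i := e.toLinearMap) h β) k y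
      rw [← this, hy, map_zero]
  rw [kd, kd, h1]
  exact LinearEquiv.finrank_map_eq e _

theorem gd_congr {G : Module.End K E} {G' : Module.End K E'} (e : E' ≃ₗ[K] E)
    (h : ∀ x, e (G' x) = G (e x)) (β : K) : gd G β = gd G' β := by
  rw [gd, gd, e.finrank_eq, kd_congr e h]

theorem kd_smul {G : Module.End K E} {ρ : K} (hρ : ρ ≠ 0) (β : K) (k : ℕ) :
    kd (ρ • G) β k = kd G (β / ρ) k := by
  have h1 : sb (ρ • G) β = ρ • sb G (β / ρ) := by
    ext x
    rw [LinearMap.smul_apply, sb_apply, sb_apply, LinearMap.smul_apply, smul_sub, smul_smul,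
      mul_div_cancel₀ _ hρ]
  have h2 : ker ((ρ • sb G (β / ρ)) ^ k) = ker (sb G (β / ρ) ^ k) := by
    ext x
    rw [smul_pow, mem_ker, mem_ker, LinearMap.smul_apply, smul_eq_zero]
    exact ⟨fun h => h.resolve_left (pow_ne_zero _ hρ), Or.inr⟩
  rw [kd, kd, h1, h2]

end Pool.Agent.Q56.NS
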