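import Pool.Agent.Q56.NS.SS
import Pool.Agent.Q56.NS.Defs

/-!
If the Frobenius endomorphism is not semisimple, then the Tate classes on the powers are negligible.
-/

set_option autoImplicit false
set_option linter.unusedSectionVars false

open CategoryTheory AlgebraicGeometry TensorProduct

universe u v

namespace Pool.Agent.Q56.NS

open Pool.Agent.H914 Pool.Agent.H447 Pool.Agent.W534 VarClass Obj WeilCohomology Module
  Pool.Agent.Y163

variable {k : Type u} [Field k] {𝒱 : VarClass k} {ops : CycleOps 𝒱}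
  {W : WeilCohomology.{u, v} ops} {X Y Z : 𝒱.Obj} {p : ℕ} {Φ : FrobSystem W p}

theorem mem_tateSpace {Z : 𝒱.Obj} {j : ℕ} {c : W.H Z} : c ∈ tateSpace Φ Z j ↔ IsTate Φ Z j c :=
  Iff.rfl

theorem span_le_tateSpace (Φ : FrobSystem W p) (Z : 𝒱.Obj) (j : ℕ) :
    spanCycles W Z j ≤ tateSpace Φ Z j := fun _ hc => span_le_tate Φ Z j hc

/-- All Tate classes are eigenvectors over one finite field. -/
theorem exists_tate_eig (Φ : FrobSystem W p) (Z : 𝒱.Obj) (j : ℕ) : ∃ t, 0 < t ∧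
    ∀ c ∈ tateSpace Φ Z j, frob Φ Z t c = ((card Φ Z t : W.K) ^ j) • c := by
  obtain ⟨S, hS⟩ := (IsNoetherian.noetherian (tateSpace Φ Z j) : (tateSpace Φ Z j).FG)
  have h1 : ∀ S' : Finset (W.H Z), (S' : Set (W.H Z)) ⊆ tateSpace Φ Z j → ∃ t, 0 < t ∧
      ∀ c ∈ S', frob Φ Z t c = ((card Φ Z t : W.K) ^ j) • c := by
    classical
    intro S'
    induction S' using Finset.induction with
    | empty => exact fun _ => ⟨1, one_pos, fun c hc => absurd hc (by simp)⟩
    | insert a S' _ ih =>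
      intro h
      rw [Finset.coe_insert, Set.insert_subset_iff] at h
      obtain ⟨t, ht, h2⟩ := ih h.2
      obtain ⟨-, s, hs, h3⟩ := h.1
      rw [← card_pow] at h3
      refine ⟨s * t, Nat.mul_pos hs ht, fun c hc => ?_⟩
      rcases Finset.mem_insert.1 hc with rfl | hc
      · exact span_eig_mul Φ h3 t
      · exact span_eig_mul' Φ (h2 c hc) s
  obtain ⟨t, ht, h2⟩ := h1 S (by rw [← hS]; exact Submodule.subset_span)
  refine ⟨t, ht, fun c hc => ?_⟩
  rw [← hS] at hc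
  induction hc using Submodule.span_induction with
  | mem x hx => exact h2 x hx
  | zero => rw [map_zero, smul_zero]
  | add x y _ _ hx hy => rw [map_add, hx, hy, smul_add]
  | smul a x _ hx => rw [map_smul, hx, smul_comm]

theorem tateSpace_le_genU (Φ : FrobSystem W p) (Z : 𝒱.Obj) (j : ℕ) :
    tateSpace Φ Z j ≤ genU Φ Z j := fun _ hc => (mem_genU Φ).2 (IsTate.mem Φ hc)

theorem frob_one_pow (Φ : FrobSystem W p) (Z : 𝒱.Obj) (s : ℕ) :
    frob Φ Z s = frob Φ Z 1 ^ s := by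
  rw [← frob_mul_eq, one_mul]

/-- A common level. -/
theorem exists_level (hp : 1 < p) (σ : W.K →+* ℂ) (hRH : ∀ Z, RiemannHyp Φ σ Z) (X : 𝒱.Obj)
    (n : ℕ) : ∃ s s₁, 0 < s ∧ 0 < s₁ ∧
    IsPow (frob Φ X s₁) (2 * n + 2) (W.H (sq X n)) (frob Φ (sq X n) s) ∧
    finrank W.K (genU Φ (sq X n) ((n + 1) * X.dim)) =
      gd (frob Φ (sq X n) s) ((card Φ (sq X n) s : W.K) ^ ((n + 1) * X.dim)) ∧
    (∀ x ∈ genU Φ (sq X n) ((n + 1) * X.dim), x ∈ genTate Φ (sq X n) s ((n + 1) * X.dim)) ∧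
    finrank W.K (tateSpace Φ (sq X n) ((n + 1) * X.dim)) ≤
      kd (frob Φ (sq X n) s) ((card Φ (sq X n) s : W.K) ^ ((n + 1) * X.dim)) 1 := by
  obtain ⟨t, ht, h1⟩ := isPow_sq Φ X n
  set j := (n + 1) * X.dim with hj
  obtain ⟨ht', h2⟩ := (exists_stable Φ (sq X n) j).choose_spec
  set t' := (exists_stable Φ (sq X n) j).choose with ht'def
  obtain ⟨t'', ht'', h3⟩ := exists_tate_eig Φ (sq X n) j
  obtain ⟨s₁, hs₁, h4⟩ := h1 (t' * t'') (Nat.mul_pos ht' ht'')
  set s := t * (t' * t'') with hs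
  have hs0 : 0 < s := Nat.mul_pos ht (Nat.mul_pos ht' ht'')
  have hdvd : t' ∣ s := ⟨t * t'', by rw [hs]; ring⟩
  have h5 := genU_eq Φ (Z := sq X n) (j := j) hs0 hdvd
  refine ⟨s, s₁, hs0, hs₁, h4, ?_, ?_, ?_⟩
  · rw [gd_frob Φ hp σ (hRH _) hs0, h5]
  · intro x hx
    rwa [h5]
  · refine Submodule.finrank_mono fun c hc => ?_
    rw [LinearMap.mem_ker, pow_one, sb_apply]
    have h6 := h3 c hc
    have h7 := span_eig_mul Φ h6 (t * t')
    have h8 : t'' * (t * t') = s := by rw [hs]; ring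
    rw [h8] at h7
    rw [h7, sub_self]

theorem bound_mono {D b n : ℕ} (hD : 0 < D) (h : D ≤ b) : bound D n ≤ bound b n := by
  have hD' : (1 : ℝ) ≤ D := by exact_mod_cast hD
  have h' : (D : ℝ) ≤ b := by exact_mod_cast h
  have hn : (0 : ℝ) ≤ n := Nat.cast_nonneg n
  have h1 : (0 : ℝ) ≤ 1 - 1 / (D : ℝ) ^ 2 := by
    rw [sub_nonneg, div_le_one (by positivity)]
    exact one_le_pow₀ hD'
  rw [bound, bound]
  gcongr
  · linarith

theorem bound_tendsto {b : ℕ} (hb : 0 < b) :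
    Filter.Tendsto (bound b) Filter.atTop (nhds 0) := by
  have h1 : Filter.Tendsto (fun n : ℕ => Real.sqrt (b / (2 * n + 2))) Filter.atTop (nhds 0) := by
    have h2 : Filter.Tendsto (fun n : ℕ => (b / (2 * n + 2) : ℝ)) Filter.atTop (nhds 0) := by
      refine Filter.Tendsto.div_atTop tendsto_const_nhds ?_
      refine Filter.tendsto_atTop_add_const_right _ _ ?_
      exact Filter.Tendsto.const_mul_atTop (by norm_num) tendsto_natCast_atTop_atTop
    have h3 := (Real.continuous_sqrt.tendsto 0).comp h2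
    rwa [Real.sqrt_zero] at h3
  have h2 : Filter.Tendsto (fun n : ℕ => (n + 2 : ℝ) ^ (b ^ 2) *
      (1 - 1 / (b : ℝ) ^ 2) ^ (2 * n + 2)) Filter.atTop (nhds 0) := by
    set x : ℝ := (1 - 1 / (b : ℝ) ^ 2) ^ 2 with hx
    have hx0 : 0 ≤ x := by positivity
    have hb' : (1 : ℝ) ≤ b := by exact_mod_cast hb
    have h3 : 0 < 1 / (b : ℝ) ^ 2 := by positivity
    have h4 : 1 / (b : ℝ) ^ 2 ≤ 1 := by
      rw [div_le_one (by positivity)]
      exact one_le_pow₀ hb'
    have hx1 : |x| < 1 := by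
      rw [abs_of_nonneg hx0, hx]
      nlinarith
    have h5 : Filter.Tendsto (fun n : ℕ => ((n : ℝ) ^ (b ^ 2) * x ^ n)) Filter.atTop (nhds 0) :=
      tendsto_pow_const_mul_const_pow_of_abs_lt_one _ hx1
    have h6 := (h5.comp (Filter.tendsto_add_atTop_nat 1)).const_mul ((2 : ℝ) ^ (b ^ 2))
    rw [mul_zero] at h6
    refine squeeze_zero (fun n => ?_) (fun n => ?_) h6
    · have : 0 ≤ 1 - 1 / (b : ℝ) ^ 2 := by linarith
      positivity
    · have h7 : (1 - 1 / (b : ℝ) ^ 2) ^ (2 * n + 2) = x ^ (n + 1) := by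
        rw [hx, ← pow_mul]
        congr 1
      rw [h7]
      change _ ≤ (2 : ℝ) ^ (b ^ 2) * (((n + 1 : ℕ) : ℝ) ^ (b ^ 2) * x ^ (n + 1))
      rw [← mul_assoc, ← mul_pow]
      have hn : (0 : ℝ) ≤ n := Nat.cast_nonneg n
      gcongr
      push_cast
      linarith
  have h3 := h1.add h2
  rw [add_zero] at h3
  exact h3

/-- **The Tate classes are negligible if the Frobenius endomorphism is not semisimple.** -/
theorem tate_le [IsAlgClosed W.K] (hp : 1 < p) (Φ : FrobSystem W p) (σ : W.K →+* ℂ)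
    (hRH : ∀ Z, RiemannHyp Φ σ Z) {D : X.Cycles} (hD : X.IsCyc 1 D) (hbig : Big ops X D) {b : ℕ}
    (hb : finrank W.K (W.H X) ≤ b) (hss : ¬ (frob Φ X 1).IsSemisimple) (n : ℕ) :
    (finrank W.K (tateSpace Φ (sq X n) ((n + 1) * X.dim)) : ℝ) ≤
      bound b n * finrank W.K (genU Φ (sq X n) ((n + 1) * X.dim)) := by
  have hX : par (W.isInternal X) ∈ KOp W X X 0 := par_mem_of_RH Φ hp σ (hRH X)
  have htr : W.tr X (W.cl X D ^ X.dim) ≠ 0 := hbig.tr hD
  have hH : 0 < finrank W.K (W.H X) := by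
    have : Nontrivial (W.H X) := by
      by_contra hcon
      rw [not_nontrivial_iff_subsingleton] at hcon
      apply htr
      rw [Subsingleton.elim (W.cl X D ^ X.dim) 0, map_zero]
    exact finrank_pos
  have hle : mrank W X n ≤ finrank W.K (genU Φ (sq X n) ((n + 1) * X.dim)) :=
    (kRank_le _ _).trans (Submodule.finrank_mono (span_le_genU Φ _ _))
  obtain ⟨s, s₁, hs, hs₁, h1, h2, h3, h4⟩ := exists_level (Φ := Φ) hp σ hRH X n
  have hns : NotSS (frob Φ X s₁) := by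
    rw [frob_one_pow]
    refine NotSS.pow (frob_inj Φ X 1) ?_ hs₁
    by_contra hcon
    exact hss (isSemisimple_of_not hcon)
  have h5 := kd_pow_le (frob_inj Φ X s₁) hns (Nat.succ_pos _) h1
    ((card Φ (sq X n) s : W.K) ^ ((n + 1) * X.dim))
  rw [← h2] at h5
  set E := finrank W.K (W.H X) with hE
  set z := finrank W.K (genU Φ (sq X n) ((n + 1) * X.dim)) with hz
  have hE1 : (1 : ℝ) ≤ E := by exact_mod_cast hH
  have hE0 : (0 : ℝ) < E := by linarith
  have hx0 : (0 : ℝ) ≤ 1 - 1 / (E : ℝ) ^ 2 := by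
    rw [sub_nonneg, div_le_one (by positivity)]
    exact one_le_pow₀ hE1
  have h6 : (E : ℝ) ^ (2 * n + 2) ≤ z * (n + 2) ^ (E ^ 2) := by
    have h7 := mrank_growth hX n
    rw [← pow_mul, show 2 * (n + 1) = 2 * n + 2 by ring] at h7
    have h8 := h7.trans (Nat.mul_le_mul_right _ hle)
    exact_mod_cast h8
  have h7 : (E - 1 / E : ℝ) ^ (2 * n + 2) ≤
      (n + 2) ^ (E ^ 2) * (1 - 1 / (E : ℝ) ^ 2) ^ (2 * n + 2) * z := by
    have h8 : (E - 1 / E : ℝ) = E * (1 - 1 / (E : ℝ) ^ 2) := by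
      field_simp
    rw [h8, mul_pow]
    calc (E : ℝ) ^ (2 * n + 2) * (1 - 1 / (E : ℝ) ^ 2) ^ (2 * n + 2) ≤
        (z * (n + 2) ^ (E ^ 2)) * (1 - 1 / (E : ℝ) ^ 2) ^ (2 * n + 2) := by gcongr
      _ = _ := by ring
  have h8 : (finrank W.K (tateSpace Φ (sq X n) ((n + 1) * X.dim)) : ℝ) ≤ bound E n * z := by
    calc (finrank W.K (tateSpace Φ (sq X n) ((n + 1) * X.dim)) : ℝ) ≤
        (kd (frob Φ (sq X n) s) ((card Φ (sq X n) s : W.K) ^ ((n + 1) * X.dim)) 1 : ℝ) := by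
          exact_mod_cast h4
      _ ≤ _ := h5
      _ ≤ Real.sqrt (E / ((2 * n + 2 : ℕ) : ℝ)) * z +
        (n + 2) ^ (E ^ 2) * (1 - 1 / (E : ℝ) ^ 2) ^ (2 * n + 2) * z := by gcongr
      _ = bound E n * z := by
        rw [bound]
        push_cast
        ring
  exact h8.trans (mul_le_mul_of_nonneg_right (bound_mono hH hb) (Nat.cast_nonneg _))

/-- **All poles are accounted for by Tate classes if the Frobenius endomorphism is semisimple.** -/
theorem tate_eq [IsAlgClosed W.K] (hp : 1 < p) (Φ : FrobSystem W p) (σ : W.K →+* ℂ)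
    (hRH : ∀ Z, RiemannHyp Φ σ Z) (hss : (frob Φ X 1).IsSemisimple) (n : ℕ) :
    tateSpace Φ (sq X n) ((n + 1) * X.dim) = genU Φ (sq X n) ((n + 1) * X.dim) := by
  refine le_antisymm (tateSpace_le_genU Φ _ _) fun x hx => ?_
  obtain ⟨s, s₁, hs, hs₁, h1, -, h3, -⟩ := exists_level (Φ := Φ) hp σ hRH X n
  have h2 : (frob Φ X s₁).IsSemisimple := by
    rw [frob_one_pow]
    exact hss.pow s₁
  have h4 := isPow_ss (frob_inj Φ X s₁) h2 h1
  have hx' := h3 x hx
  rw [mem_genTate] at hx'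
  obtain ⟨⟨m, hm⟩, hgr⟩ := hx'
  refine ⟨hgr, s, hs, ?_⟩
  have h5 := ss_pow_eq (not_notSS h4) _ m x hm
  rw [sb_apply, sub_eq_zero] at h5
  rw [← card_pow]
  exact h5

/-- **Algebraic cycles force the semisimplicity of the Frobenius endomorphism.** -/
theorem main [IsAlgClosed W.K] (hp : 1 < p) (Φ : FrobSystem W p) (σ : W.K →+* ℂ)
    (hRH : ∀ Z, RiemannHyp Φ σ Z) {D : X.Cycles} (hD : X.IsCyc 1 D) (hbig : Big ops X D) {b : ℕ}
    (hb : finrank W.K (W.H X) ≤ b) :
    (∃ z r t : ℕ → ℕ, (∀ n, PoleOrderIs Φ σ (sq X n) ((n + 1) * X.dim) (z n)) ∧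
      (∀ n, r n = numRank ops (sq X n) ((n + 1) * X.dim)) ∧
      (∀ n, t n = finrank W.K (tateSpace Φ (sq X n) ((n + 1) * X.dim))) ∧
      (∀ n, 0 < r n ∧ r n ≤ t n ∧ t n ≤ z n) ∧
      ((Module.End.IsSemisimple (W.map (Φ.Fr X)).toLinearMap ∧ ∀ n, t n = z n) ∨
        ∀ n, (t n : ℝ) ≤ bound b n * z n) ∧
      ((Module.End.IsSemisimple (W.map (Φ.Fr X)).toLinearMap ∧
          ∃ d : ℕ, (∀ n, z n ≤ d * r n) ∧
            Filter.Tendsto (fun n => (z n : ℝ) / r n) Filter.atTop (nhds d)) ∨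
        Filter.Tendsto (fun n => (z n : ℝ) / r n) Filter.atTop Filter.atTop)) ∧
    Filter.Tendsto (bound b) Filter.atTop (nhds 0) := by
  have hX : par (W.isInternal X) ∈ KOp W X X 0 := par_mem_of_RH Φ hp σ (hRH X)
  have htr : W.tr X (W.cl X D ^ X.dim) ≠ 0 := hbig.tr hD
  have hH : 0 < finrank W.K (W.H X) := by
    have : Nontrivial (W.H X) := by
      by_contra hcon
      rw [not_nontrivial_iff_subsingleton] at hcon
      apply htr
      rw [Subsingleton.elim (W.cl X D ^ X.dim) 0, map_zero]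
    exact finrank_pos
  have hb0 : 0 < b := hH.trans_le hb
  have hr1 : ∀ n, mrank W X n ≤
      finrank W.K (tateSpace Φ (sq X n) ((n + 1) * X.dim)) := fun n =>
    (kRank_le _ _).trans (Submodule.finrank_mono (span_le_tateSpace Φ _ _))
  have hr2 : ∀ n, finrank W.K (tateSpace Φ (sq X n) ((n + 1) * X.dim)) ≤
      finrank W.K (genU Φ (sq X n) ((n + 1) * X.dim)) := fun n =>
    Submodule.finrank_mono (tateSpace_le_genU Φ _ _)
  have hpos : ∀ n, 0 < mrank W X n := by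
    intro n
    have h1 := mrank_growth hX n
    apply Nat.pos_of_ne_zero
    intro h0
    rw [h0, zero_mul] at h1
    have h2 : 0 < (finrank W.K (W.H X) ^ 2) ^ (n + 1) := by positivity
    omega
  have hlim := bound_tendsto hb0
  have hF : frob Φ X 1 = (W.map (Φ.Fr X)).toLinearMap := by
    have h : Pool.Agent.W534.iter (Φ.Fr X) 1 = Φ.Fr X := by
      simp [Pool.Agent.W534.iter]
    rw [frob, h]
  refine ⟨⟨fun n => finrank W.K (genU Φ (sq X n) ((n + 1) * X.dim)), fun n => mrank W X n,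
    fun n => finrank W.K (tateSpace Φ (sq X n) ((n + 1) * X.dim)),
    fun n => poleOrderIs hp (hRH _) (by rw [dim_sq]; omega), fun n => (numRank_sq X n).symm,
    fun n => rfl, fun n => ⟨hpos n, hr1 n, hr2 n⟩, ?_, ?_⟩, hlim⟩
  · rw [← hF]
    by_cases hss : (frob Φ X 1).IsSemisimple
    · left
      refine ⟨hss, fun n => ?_⟩
      change finrank W.K (tateSpace Φ (sq X n) ((n + 1) * X.dim)) = _
      rw [tate_eq hp Φ σ hRH hss n]
    · exact Or.inr fun n => tate_le hp Φ σ hRH hD hbig hb hss n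
  · rw [← hF]
    by_cases hss : (frob Φ X 1).IsSemisimple
    · rcases index_law hX hH (fun n => genU Φ (sq X n) ((n + 1) * X.dim))
        ((genFam Φ).stable_sq X) with ⟨d, hd1, hd2⟩ | h
      · exact Or.inl ⟨hss, d, hd1, hd2⟩
      · exact Or.inr h
    · right
      have h1 : ∀ n, (0 : ℝ) < bound b n := by
        intro n
        rw [bound]
        have h2 : (0 : ℝ) < b := by exact_mod_cast hb0
        have h3 : (0 : ℝ) ≤ 1 - 1 / (b : ℝ) ^ 2 := by
          rw [sub_nonneg, div_le_one (by positivity)]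
          exact one_le_pow₀ (by exact_mod_cast hb0)
        positivity
      have h2 : Filter.Tendsto (fun n => (bound b n)⁻¹) Filter.atTop Filter.atTop :=
        (tendsto_nhdsWithin_iff.2 ⟨hlim, Filter.Eventually.of_forall h1⟩).inv_tendsto_nhdsGT_zero
      refine Filter.tendsto_atTop_mono (fun n => ?_) h2
      have h3 := tate_le hp Φ σ hRH hD hbig hb hss n
      have h4 : (mrank W X n : ℝ) ≤ finrank W.K (tateSpace Φ (sq X n) ((n + 1) * X.dim)) := by
        exact_mod_cast hr1 n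
      have h5 : (0 : ℝ) < mrank W X n := by exact_mod_cast hpos n
      rw [le_div_iff₀ h5, inv_mul_le_iff₀ (h1 n)]
      exact h4.trans h3

end Pool.Agent.Q56.NS
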