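import Pool.Agent.Q56.NS.Count

/-!
The kernels on the tensor powers of an operator which is not semisimple.
-/

set_option autoImplicit false
set_option linter.unusedSectionVars false

open Module LinearMap TensorProduct Finset

namespace Pool.Agent.Q56.NS

universe u v

variable {K : Type u} [Field K] {V : Type v} [AddCommGroup V] [Module K V]

/-- `(M, G)` is isomorphic to the `N`-th tensor power of `(V, F)`. -/
inductive IsPow (F : Module.End K V) : ℕ → ∀ (M : Type v) [AddCommGroup M] [Module K M],
    Module.End K M → Prop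
  | zero (M : Type v) [AddCommGroup M] [Module K M] (e : M ≃ₗ[K] K) : IsPow F 0 M 1
  | succ (N : ℕ) (M' : Type v) [AddCommGroup M'] [Module K M'] (G' : Module.End K M')
      (M : Type v) [AddCommGroup M] [Module K M] (G : Module.End K M)
      (h : IsPow F N M' G') (e : (V ⊗[K] M') ≃ₗ[K] M)
      (he : ∀ x, e (TensorProduct.map F G' x) = G (e x)) : IsPow F (N + 1) M G

theorem kd_one_le [CharZero K] {M : Type v} [AddCommGroup M] [Module K M] (e : M ≃ₗ[K] K) (α : K)
    (l : List K) (β : K) :
    (∀ k, kd (1 : Module.End K M) β k ≤ bl 0 k * hw α l 0 0 β) ∧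
      hw α l 0 0 β ≤ gd (1 : Module.End K M) β := by
  have hM : finrank K M = 1 := by rw [e.finrank_eq, finrank_self]
  have : Module.Finite K M := Module.Finite.equiv e.symm
  have h1 : ∀ (k : ℕ) (x : M), (sb (1 : Module.End K M) β ^ k) x = (1 - β) ^ k • x := by
    intro k
    induction k with
    | zero => intro x; simp
    | succ k ih =>
      intro x
      have h3 : x - β • x = (1 - β) • x := by rw [sub_smul, one_smul]
      rw [pow_succ', Module.End.mul_apply, ih, map_smul, sb_apply, Module.End.one_apply,
        h3, smul_smul, pow_succ]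
  have h2 : ∀ k, kd (1 : Module.End K M) β k ≤ 1 := fun k => (Submodule.finrank_le _).trans hM.le
  constructor
  · intro k
    rcases k with _ | k
    · rw [kd_zero]; exact Nat.zero_le _
    · by_cases hβ : β = 1
      · have h4 : bl 0 (k + 1) * hw α l 0 0 β = 1 := by rw [hw, if_pos hβ]; rfl
        rw [h4]; exact h2 _
      · rw [hw, if_neg hβ, mul_zero, kd]
        have h3 : ker (sb (1 : Module.End K M) β ^ (k + 1)) = ⊥ := by
          rw [eq_bot_iff]
          intro x hx
          rw [mem_ker, h1] at hx
          exact (smul_eq_zero.1 hx).resolve_left (pow_ne_zero _ (sub_ne_zero.2 (Ne.symm hβ)))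
        rw [h3, finrank_bot]
  · by_cases hβ : β = 1
    · rw [hw, if_pos hβ, gd, kd, hM]
      have h3 : ker (sb (1 : Module.End K M) β ^ 1) = ⊤ := by
        rw [eq_top_iff]
        intro x _
        rw [mem_ker, h1, hβ, sub_self, pow_one, zero_smul]
      rw [h3, finrank_top, hM]
    · rw [hw, if_neg hβ]; exact Nat.zero_le _

theorem isPow_finite [Module.Finite K V] {F : Module.End K V} (hF : Function.Injective F) {N : ℕ}
    {M : Type v} [AddCommGroup M] [Module K M] {G : Module.End K M} (h : IsPow F N M G) :
    Module.Finite K M ∧ Function.Injective G := by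
  induction h with
  | zero M e => exact ⟨Module.Finite.equiv e.symm, fun _ _ h => h⟩
  | succ N M' G' M G h e he ih =>
    obtain ⟨h1, h2⟩ := ih
    refine ⟨Module.Finite.equiv e, ?_⟩
    have h3 : Function.Injective (TensorProduct.map F G') :=
      TensorProduct.map_injective_of_flat_flat _ _ hF h2
    intro x y hxy
    have h4 : e (TensorProduct.map F G' (e.symm x)) = e (TensorProduct.map F G' (e.symm y)) := by
      rw [he, he, e.apply_symm_apply, e.apply_symm_apply, hxy]
    exact e.symm.injective (h3 (e.injective h4))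

/-- The bound in terms of words. -/
theorem kd_words [IsAlgClosed K] [CharZero K] [Module.Finite K V] {F : Module.End K V}
    (hF : Function.Injective F) {α : K} {l : List K}
    (hb : ∀ (M : Type v) [AddCommGroup M] [Module K M] [Module.Finite K M] (G : Module.End K M)
        (_ : Function.Injective G) (β : K),
        (∀ k, kd (TensorProduct.map F G) β (k + 1) ≤ kd G (β / α) (k + 2) + kd G (β / α) k +
          (l.map fun ρ => kd G (β / ρ) (k + 1)).sum) ∧
        2 * gd G (β / α) + (l.map fun ρ => gd G (β / ρ)).sum ≤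
          gd (TensorProduct.map F G) β) {N : ℕ}
    {M : Type v} [AddCommGroup M] [Module K M] {G : Module.End K M} (h : IsPow F N M G) (β : K) :
    (∀ k, kd G β k ≤ ∑ s ∈ range (N + 1), bl s k * hw α l N s β) ∧
      ∑ s ∈ range (N + 1), 2 ^ s * hw α l N s β ≤ gd G β := by
  induction h generalizing β with
  | zero M e =>
    rw [zero_add, sum_range_one, pow_zero, one_mul]
    obtain ⟨h1, h2⟩ := kd_one_le e α l β
    refine ⟨fun k => ?_, h2⟩
    rw [sum_range_one]
    exact h1 k
  | succ N M' G' M G h e he ih =>
    obtain ⟨hfin, hinj⟩ := isPow_finite hF h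
    obtain ⟨h1, h2⟩ := hb M' G' hinj β
    constructor
    · intro k
      rcases k with _ | k
      · rw [kd_zero]; exact Nat.zero_le _
      · rw [kd_congr e he, sum_hw α l (fun s => bl s (k + 1))]
        refine (h1 k).trans (Nat.add_le_add ?_ ?_)
        · refine (Nat.add_le_add ((ih _).1 _) ((ih _).1 _)).trans (le_of_eq ?_)
          rw [← sum_add_distrib]
          refine sum_congr rfl fun s _ => ?_
          rw [bl_succ, add_mul]
        · exact List.sum_le_sum fun ρ _ => (ih _).1 _
    · rw [gd_congr e he, sum_hw α l (fun s => 2 ^ s)]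
      refine le_trans (Nat.add_le_add ?_ ?_) h2
      · have h3 := Nat.mul_le_mul_left 2 (ih (β / α)).2
        refine le_trans (le_of_eq ?_) h3
        rw [mul_sum]
        refine sum_congr rfl fun s _ => ?_
        rw [pow_succ]
        ring
      · exact List.sum_le_sum fun ρ _ => (ih _).2

/-- **The number of eigenvectors in the tensor powers of an operator which is not semisimple.** -/
theorem kd_pow_le [IsAlgClosed K] [CharZero K] [Module.Finite K V] {F : Module.End K V}
    (hF : Function.Injective F) (hss : NotSS F) {N : ℕ} (hN : 0 < N) {M : Type v}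
    [AddCommGroup M] [Module K M] {G : Module.End K M} (h : IsPow F N M G) (β : K) :
    (kd G β 1 : ℝ) ≤ Real.sqrt (finrank K V / N) * gd G β +
      (finrank K V - 1 / finrank K V : ℝ) ^ N := by
  obtain ⟨α, l, hl, -, -, hb⟩ := exists_block.{u, v, v} (LinearMap.injective_iff_surjective.1 hF) hss
  obtain ⟨h1, h2⟩ := kd_words hF hb h β
  set D := finrank K V with hD
  have hD0 : 0 < D := by omega
  have hD' : (0 : ℝ) < D := by exact_mod_cast hD0
  have h3 : (kd G β 1 : ℝ) ≤ ∑ s ∈ range (N + 1), (bl s 1 : ℝ) * (hw α l N s β : ℝ) := by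
    exact_mod_cast h1 1
  have h4 : ∑ s ∈ range (N + 1), (2 : ℝ) ^ s * (hw α l N s β : ℝ) ≤ gd G β := by
    exact_mod_cast h2
  have h5 : ∑ s ∈ range (N + 1), (hw α l N s β : ℝ) ≤ ((l.length + 1 : ℕ) : ℝ) ^ N := by
    exact_mod_cast sum_hw_le α l N β
  calc (kd G β 1 : ℝ) ≤ ∑ s ∈ range (N + 1), (bl s 1 : ℝ) * (hw α l N s β : ℝ) := h3
    _ ≤ ∑ s ∈ range (N + 1), (Real.sqrt (D / N) * 2 ^ s + (1 + 1 / D) ^ N) *
        (hw α l N s β : ℝ) := by
        refine sum_le_sum fun s _ => ?_
        exact mul_le_mul_of_nonneg_right (bl_bound hD0 hN s) (Nat.cast_nonneg _)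
    _ = Real.sqrt (D / N) * ∑ s ∈ range (N + 1), (2 : ℝ) ^ s * (hw α l N s β : ℝ) +
        (1 + 1 / D) ^ N * ∑ s ∈ range (N + 1), (hw α l N s β : ℝ) := by
        rw [mul_sum, mul_sum, ← sum_add_distrib]
        exact sum_congr rfl fun s _ => by ring
    _ ≤ Real.sqrt (D / N) * gd G β + (1 + 1 / D) ^ N * ((l.length + 1 : ℕ) : ℝ) ^ N := by
        gcongr
    _ = Real.sqrt (D / N) * gd G β + (D - 1 / D : ℝ) ^ N := by
        congr 1
        rw [← mul_pow]
        congr 1
        have h6 : ((l.length + 1 : ℕ) : ℝ) = D - 1 := by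
          have h7 : l.length + 1 = D - 1 := by omega
          rw [h7, Nat.cast_sub (by omega), Nat.cast_one]
        rw [h6]
        field_simp
        ring

end Pool.Agent.Q56.NS
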