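import Pool.Agent.Q56.NS.Geo

/-!
Semisimple operators and tensor products.
-/

set_option autoImplicit false
set_option linter.unusedSectionVars false

open Module TensorProduct Polynomial

universe u v

namespace Pool.Agent.Q56.NS

variable {K : Type u} [Field K] {V : Type v} [AddCommGroup V] [Module K V]

theorem not_notSS [Module.Finite K V] {F : Module.End K V} (h : F.IsSemisimple) : ¬ NotSS F := by
  rintro ⟨α, v, h1, h2⟩
  apply h2
  have h3 : v ∈ F.maxGenEigenspace α := by
    rw [Module.End.mem_maxGenEigenspace]
    refine ⟨2, ?_⟩
    rw [pow_two]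
    exact h1
  rw [h.isFinitelySemisimple.maxGenEigenspace_eq_eigenspace, Module.End.mem_eigenspace_iff] at h3
  rw [sb_apply, h3, sub_self]

theorem ss_pow_eq {F : Module.End K V} (h : ¬ NotSS F) (α : K) : ∀ (n : ℕ) (x : V),
    (sb F α ^ n) x = 0 → sb F α x = 0 := by
  have h1 : ∀ x, sb F α (sb F α x) = 0 → sb F α x = 0 := by
    intro x hx
    by_contra hcon
    exact h ⟨α, x, hx, hcon⟩
  intro n x hx
  exact Pool.Agent.W534.ker_of_sq h1 hx

theorem isSemisimple_of_not [IsAlgClosed K] [Module.Finite K V] {F : Module.End K V}
    (h : ¬ NotSS F) : F.IsSemisimple := by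
  classical
  set S : Finset K := F.charpoly.roots.toFinset with hS
  set P : K[X] := ∏ α ∈ S, (X - C α) with hP
  have hsq : Squarefree P := by
    refine Polynomial.Separable.squarefree ?_
    rw [hP]
    exact Polynomial.separable_prod_X_sub_C_iff'.2 fun x _ y _ hxy => hxy
  refine Module.End.isSemisimple_of_squarefree_aeval_eq_zero hsq ?_
  have h1 : ∀ α, F.maxGenEigenspace α ≤ LinearMap.ker (aeval F P) := by
    intro α x hx
    rw [Module.End.mem_maxGenEigenspace] at hx
    obtain ⟨n, hn⟩ := hx
    have h2 : sb F α x = 0 := ss_pow_eq h α n x hn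
    by_cases hx0 : x = 0
    · rw [hx0]; exact Submodule.zero_mem _
    · rw [sb_apply, sub_eq_zero] at h2
      have h3 : F.HasEigenvector α x := ⟨Module.End.mem_eigenspace_iff.2 h2, hx0⟩
      have h4 : α ∈ S := by
        rw [hS, Multiset.mem_toFinset, mem_roots (LinearMap.charpoly_monic F).ne_zero]
        exact (Module.End.hasEigenvalue_iff_isRoot_charpoly _ _).1
          (Module.End.hasEigenvalue_of_hasEigenvector h3)
      rw [LinearMap.mem_ker, Module.End.aeval_apply_of_hasEigenvector h3, hP,
        Polynomial.eval_prod]
      have h5 : ∏ β ∈ S, (X - C β : K[X]).eval α = 0 :=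
        Finset.prod_eq_zero h4 (by simp)
      rw [h5, zero_smul]
  have h2 : (⊤ : Submodule K V) ≤ LinearMap.ker (aeval F P) := by
    rw [← Module.End.iSup_maxGenEigenspace_eq_top F]
    exact iSup_le h1
  ext x
  exact h2 (Submodule.mem_top)

theorem semisimple_tensor [PerfectField K] [Module.Finite K V] {M : Type v} [AddCommGroup M]
    [Module K M] [Module.Finite K M] {F : Module.End K V} {G : Module.End K M}
    (hF : F.IsSemisimple) (hG : G.IsSemisimple) :
    Module.End.IsSemisimple (R := K) (M := V ⊗[K] M) (TensorProduct.map F G) := by
  have h1 : Module.End.IsSemisimple (R := K) (M := V ⊗[K] M) (TensorProduct.map F 1) := by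
    refine Module.End.isSemisimple_of_squarefree_aeval_eq_zero hF.minpoly_squarefree ?_
    have h2 : ∀ p : K[X], aeval (TensorProduct.map F 1 : Module.End K (V ⊗[K] M)) p =
        TensorProduct.map (aeval F p) 1 := by
      intro p
      induction p using Polynomial.induction_on' with
      | add p q hp hq =>
        rw [map_add, map_add, hp, hq]
        exact (TensorProduct.map_add_left _ _ _).symm
      | monomial n a =>
        rw [aeval_monomial, aeval_monomial]
        have h3 : ∀ n : ℕ, (TensorProduct.map F 1 : Module.End K (V ⊗[K] M)) ^ n =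
            TensorProduct.map (F ^ n) 1 := by
          intro n
          induction n with
          | zero => rw [pow_zero, pow_zero]; exact TensorProduct.map_one.symm
          | succ n ih =>
            rw [pow_succ, pow_succ, ih]
            exact (TensorProduct.map_mul _ _ _ _).symm
        rw [h3]
        ext x y
        change a • (TensorProduct.map (F ^ n) (1 : Module.End K M)) (x ⊗ₜ y) = _
        rw [TensorProduct.map_tmul]
        change a • ((F ^ n) x ⊗ₜ[K] y) = (a • (F ^ n) x) ⊗ₜ[K] y
        rw [TensorProduct.smul_tmul']
    rw [h2, minpoly.aeval]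
    exact TensorProduct.map_zero_left _
  have h1' : Module.End.IsSemisimple (R := K) (M := V ⊗[K] M) (TensorProduct.map 1 G) := by
    refine Module.End.isSemisimple_of_squarefree_aeval_eq_zero hG.minpoly_squarefree ?_
    have h2 : ∀ p : K[X], aeval (TensorProduct.map 1 G : Module.End K (V ⊗[K] M)) p =
        TensorProduct.map 1 (aeval G p) := by
      intro p
      induction p using Polynomial.induction_on' with
      | add p q hp hq =>
        rw [map_add, map_add, hp, hq]
        exact (TensorProduct.map_add_right _ _ _).symm
      | monomial n a =>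
        rw [aeval_monomial, aeval_monomial]
        have h3 : ∀ n : ℕ, (TensorProduct.map 1 G : Module.End K (V ⊗[K] M)) ^ n =
            TensorProduct.map 1 (G ^ n) := by
          intro n
          induction n with
          | zero => rw [pow_zero, pow_zero]; exact TensorProduct.map_one.symm
          | succ n ih =>
            rw [pow_succ, pow_succ, ih]
            exact (TensorProduct.map_mul _ _ _ _).symm
        rw [h3]
        ext x y
        change a • (TensorProduct.map (1 : Module.End K V) (G ^ n)) (x ⊗ₜ y) = _
        rw [TensorProduct.map_tmul]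
        change a • (x ⊗ₜ[K] (G ^ n) y) = x ⊗ₜ[K] (a • (G ^ n) y)
        rw [TensorProduct.tmul_smul]
    rw [h2, minpoly.aeval]
    exact TensorProduct.map_zero_right _
  have h2 : (TensorProduct.map F G : Module.End K (V ⊗[K] M)) =
      TensorProduct.map F 1 * TensorProduct.map 1 G := by
    rw [← TensorProduct.map_mul, mul_one, one_mul]
  have h3 : Commute (TensorProduct.map F 1 : Module.End K (V ⊗[K] M))
      (TensorProduct.map 1 G) := by
    rw [commute_iff_eq, ← TensorProduct.map_mul, ← TensorProduct.map_mul, mul_one, one_mul,
      mul_one, one_mul]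
  rw [h2]
  exact h1.mul_of_commute h3 h1'

theorem isPow_ss [PerfectField K] [Module.Finite K V] {F : Module.End K V}
    (hFi : Function.Injective F) (hF : F.IsSemisimple) {N : ℕ} {M : Type v} [AddCommGroup M]
    [Module K M] {G : Module.End K M} (h : IsPow F N M G) : G.IsSemisimple := by
  induction h with
  | zero M e =>
    have : Module.Finite K M := Module.Finite.equiv e.symm
    exact Module.End.isSemisimple_id
  | succ N M' G' M G h e he ih =>
    obtain ⟨hfin, -⟩ := isPow_finite hFi h
    have h1 := semisimple_tensor hF ih
    exact (LinearEquiv.isSemisimple_iff _ G e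
      (LinearMap.ext fun x => he x)).1 h1

end Pool.Agent.Q56.NS
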