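import Pool.Agent.Q56.NS.Ten

/-!
The tensor product with an operator which has a Jordan block of size at least two.
-/

set_option autoImplicit false
set_option linter.unusedSectionVars false

open Module LinearMap TensorProduct

namespace Pool.Agent.Q56.NS

universe u v w

variable {K : Type u} [Field K]

theorem kd_eq_zero_of_subsingleton {E : Type*} [AddCommGroup E] [Module K E] [Subsingleton E]
    (G : Module.End K E) (β : K) (k : ℕ) : kd G β k = 0 := by
  rw [kd]
  exact finrank_zero_of_subsingleton

section

variable {M : Type w} [AddCommGroup M] [Module K M]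

/-- the tensor product with a line -/
theorem kd_line (ρ : K) (hρ : ρ ≠ 0) (G : Module.End K M) (β : K) (k : ℕ) :
    kd (TensorProduct.map (ρ • (1 : Module.End K K)) G) β k = kd G (β / ρ) k := by
  rw [← kd_smul hρ]
  refine (kd_congr (TensorProduct.lid K M) ?_ β k).symm
  intro x
  induction x using TensorProduct.induction_on with
  | zero => simp only [map_zero]
  | tmul a b =>
    rw [TensorProduct.map_tmul, TensorProduct.lid_tmul, TensorProduct.lid_tmul,
      LinearMap.smul_apply, LinearMap.smul_apply, Module.End.one_apply, map_smul, smul_eq_mul,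
      mul_smul]
  | add a b ha hb => rw [map_add, map_add, ha, hb, map_add, map_add]

theorem gd_line [Module.Finite K M] (ρ : K) (hρ : ρ ≠ 0) (G : Module.End K M) (β : K) :
    gd (TensorProduct.map (ρ • (1 : Module.End K K)) G) β = gd G (β / ρ) := by
  have h : finrank K (K ⊗[K] M) = finrank K M := (TensorProduct.lid K M).finrank_eq
  rw [gd, h, kd_line ρ hρ]
  rfl

/-- the block `u, v` with `F u = α u`, `F v = α v + u` -/
def blk (α : K) : Module.End K (K × K) :=
  LinearMap.prod (α • LinearMap.fst K K K + LinearMap.snd K K K) (α • LinearMap.snd K K K)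

theorem blk_apply (α : K) (x : K × K) : blk α x = (α * x.1 + x.2, α * x.2) := rfl

/-- `(K × K) ⊗ M = M × M` -/
noncomputable def lidlid (M : Type w) [AddCommGroup M] [Module K M] :
    (K × K) ⊗[K] M ≃ₗ[K] M × M :=
  (TensorProduct.prodLeft K K K K M).trans
    ((TensorProduct.lid K M).prodCongr (TensorProduct.lid K M))

theorem lidlid_tmul (a : K × K) (m : M) : lidlid M (a ⊗ₜ m) = (a.1 • m, a.2 • m) := rfl

theorem lidlid_map (α : K) (G : Module.End K M) (x : (K × K) ⊗[K] M) :
    lidlid M (TensorProduct.map (blk α) G x) = jb G α (lidlid M x) := by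
  induction x using TensorProduct.induction_on with
  | zero => simp only [map_zero]
  | tmul a b =>
    rw [TensorProduct.map_tmul, lidlid_tmul, lidlid_tmul, jb_apply, blk_apply]
    dsimp only
    rw [map_smul, map_smul, add_smul, mul_smul, mul_smul]
  | add a b ha hb => rw [map_add, map_add, ha, hb, map_add, map_add]

theorem kd_blk [CharZero K] [Module.Finite K M] {G : Module.End K M} (hG : Function.Injective G)
    {α : K} (hα : α ≠ 0) (β : K) (k : ℕ) :
    kd (TensorProduct.map (blk α) G) β (k + 1) = kd G (β / α) (k + 2) + kd G (β / α) k := by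
  rw [← kd_jb hG hα]
  exact (kd_congr (lidlid M) (lidlid_map α G) β (k + 1)).symm

theorem gd_blk [CharZero K] [Module.Finite K M] {G : Module.End K M} (hG : Function.Injective G)
    {α : K} (hα : α ≠ 0) (β : K) :
    gd (TensorProduct.map (blk α) G) β = 2 * gd G (β / α) := by
  rw [← gd_jb hG hα]
  exact (gd_congr (lidlid M) (lidlid_map α G) β).symm

end

/-- The eigenvalues of `F`: a list `l` such that the kernels of the powers of `F ⊗ G - β` are bounded
by the sum over `l`. -/
theorem exists_spec [IsAlgClosed K] : ∀ (n : ℕ) (R : Type v) [AddCommGroup R] [Module K R]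
    [Module.Finite K R] (F : Module.End K R) (_ : Function.Surjective F) (_ : finrank K R = n),
    ∃ l : List K, l.length = n ∧ (∀ ρ ∈ l, ρ ≠ 0) ∧
      ∀ (M : Type w) [AddCommGroup M] [Module K M] [Module.Finite K M] (G : Module.End K M)
        (β : K),
        (∀ k, kd (TensorProduct.map F G) β k ≤ (l.map fun ρ => kd G (β / ρ) k).sum) ∧
        (l.map fun ρ => gd G (β / ρ)).sum ≤ gd (TensorProduct.map F G) β := by
  intro n
  induction n with
  | zero =>
    intro R _ _ _ F _ hR
    refine ⟨[], rfl, by simp, ?_⟩
    intro M _ _ _ G β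
    have h1 : finrank K (R ⊗[K] M) = 0 := by rw [finrank_tensorProduct, hR, zero_mul]
    have h2 : Subsingleton (R ⊗[K] M) := Module.finrank_zero_iff.1 h1
    refine ⟨fun k => ?_, by simp⟩
    rw [kd_eq_zero_of_subsingleton]
    exact Nat.zero_le _
  | succ n ih =>
    intro R _ _ _ F hF hR
    have : Nontrivial R := Module.nontrivial_of_finrank_pos (R := K) (by omega)
    have hFi : Function.Injective F := LinearMap.injective_iff_surjective.2 hF
    obtain ⟨ρ, hρ⟩ := Module.End.exists_eigenvalue F
    obtain ⟨v, hv⟩ := hρ.exists_hasEigenvector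
    have hv0 : v ≠ 0 := hv.2
    have hFv : F v = ρ • v := hv.apply_eq_smul
    have hρ0 : ρ ≠ 0 := by
      rintro rfl
      rw [zero_smul] at hFv
      exact hv0 (hFi (hFv.trans (map_zero F).symm))
    set j : K →ₗ[K] R := LinearMap.toSpanSingleton K R v with hj
    have hji : Function.Injective j := by
      intro a b hab
      rw [hj, LinearMap.toSpanSingleton_apply, LinearMap.toSpanSingleton_apply] at hab
      exact smul_left_injective K hv0 hab
    have hjF : ∀ a : K, j ((ρ • (1 : Module.End K K)) a) = F (j a) := by
      intro a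
      rw [hj, LinearMap.toSpanSingleton_apply, LinearMap.toSpanSingleton_apply, map_smul, hFv,
        LinearMap.smul_apply, Module.End.one_apply, smul_eq_mul, smul_smul, mul_comm]
    have hst : range j ≤ (range j).comap F := by
      rintro _ ⟨a, rfl⟩
      exact ⟨_, hjF a⟩
    set π : R →ₗ[K] R ⧸ range j := (range j).mkQ with hπ
    set F₂ : Module.End K (R ⧸ range j) := (range j).mapQ (range j) F hst with hF₂
    have hπF : ∀ x, π (F x) = F₂ (π x) := fun x => rfl
    have hπs : Function.Surjective π := (range j).mkQ_surjective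
    have hF₂s : Function.Surjective F₂ := by
      intro y
      obtain ⟨x, rfl⟩ := hπs y
      obtain ⟨x', rfl⟩ := hF x
      exact ⟨π x', rfl⟩
    have hex : Function.Exact j π := by
      intro x
      rw [hπ, Submodule.mkQ_apply, Submodule.Quotient.mk_eq_zero]
      rfl
    have hn : finrank K (R ⧸ range j) = n := by
      have h1 := (range j).finrank_quotient_add_finrank
      rw [LinearMap.finrank_range_of_inj hji, finrank_self, hR] at h1
      omega
    obtain ⟨l, hl1, hl2, hl3⟩ := ih (R ⧸ range j) F₂ hF₂s hn
    refine ⟨ρ :: l, by rw [List.length_cons, hl1], ?_, ?_⟩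
    · intro a ha
      rcases List.mem_cons.1 ha with rfl | ha
      · exact hρ0
      · exact hl2 a ha
    · intro M _ _ _ G β
      obtain ⟨h1, h2⟩ := kd_tensor_le hji hπs hex hjF hπF G β
      obtain ⟨h3, h4⟩ := hl3 M G β
      refine ⟨fun k => ?_, ?_⟩
      · rw [List.map_cons, List.sum_cons]
        have h5 := h1 k
        rw [kd_line ρ hρ0] at h5
        exact h5.trans (Nat.add_le_add_left (h3 k) _)
      · rw [List.map_cons, List.sum_cons]
        rw [gd_line ρ hρ0] at h2
        exact (Nat.add_le_add_left h4 _).trans h2

/-- The operator `F` is not semisimple. -/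
def NotSS {V : Type v} [AddCommGroup V] [Module K V] (F : Module.End K V) : Prop :=
  ∃ (α : K) (v : V), sb F α (sb F α v) = 0 ∧ sb F α v ≠ 0

/-- **The tensor product with an operator which is not semisimple.** -/
theorem exists_block [IsAlgClosed K] [CharZero K] {V : Type v} [AddCommGroup V] [Module K V]
    [Module.Finite K V] {F : Module.End K V} (hF : Function.Surjective F) (hss : NotSS F) :
    ∃ (α : K) (l : List K), l.length + 2 = finrank K V ∧ α ≠ 0 ∧ (∀ ρ ∈ l, ρ ≠ 0) ∧
      ∀ (M : Type w) [AddCommGroup M] [Module K M] [Module.Finite K M] (G : Module.End K M)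
        (_ : Function.Injective G) (β : K),
        (∀ k, kd (TensorProduct.map F G) β (k + 1) ≤ kd G (β / α) (k + 2) + kd G (β / α) k +
          (l.map fun ρ => kd G (β / ρ) (k + 1)).sum) ∧
        2 * gd G (β / α) + (l.map fun ρ => gd G (β / ρ)).sum ≤
          gd (TensorProduct.map F G) β := by
  obtain ⟨α, v, hv, hu⟩ := hss
  have hFi : Function.Injective F := LinearMap.injective_iff_surjective.2 hF
  set u := sb F α v with hudef
  have hFv : F v = α • v + u := by
    rw [hudef, sb_apply]
    abel
  have hFu : F u = α • u := by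
    rw [sb_apply] at hv
    exact sub_eq_zero.1 hv
  have hα : α ≠ 0 := by
    rintro rfl
    rw [zero_smul] at hFu
    exact hu (hFi (hFu.trans (map_zero F).symm))
  set j : (K × K) →ₗ[K] V := LinearMap.coprod (LinearMap.toSpanSingleton K V u)
    (LinearMap.toSpanSingleton K V v) with hj
  have hja : ∀ x : K × K, j x = x.1 • u + x.2 • v := fun x => rfl
  have hjF : ∀ a : K × K, j (blk α a) = F (j a) := by
    intro a
    rw [hja, hja, blk_apply, map_add, map_smul, map_smul, hFu, hFv]
    dsimp only
    rw [add_smul, smul_add, smul_smul, smul_smul, mul_comm a.1, mul_comm a.2]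
    abel
  have hji : Function.Injective j := by
    rw [injective_iff_map_eq_zero]
    rintro ⟨a, b⟩ hab
    rw [hja] at hab
    dsimp only at hab
    have h1 : b • u = 0 := by
      have h2 : sb F α (a • u + b • v) = b • u := by
        rw [map_add, map_smul, map_smul, hv, smul_zero, zero_add]
      rw [hab, map_zero] at h2
      exact h2.symm
    have hb : b = 0 := (smul_eq_zero.1 h1).resolve_right hu
    rw [hb, zero_smul, add_zero] at hab
    have ha : a = 0 := (smul_eq_zero.1 hab).resolve_right hu
    rw [ha, hb]
    rfl
  have hst : range j ≤ (range j).comap F := by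
    rintro _ ⟨a, rfl⟩
    exact ⟨_, hjF a⟩
  set π : V →ₗ[K] V ⧸ range j := (range j).mkQ with hπ
  set F₂ : Module.End K (V ⧸ range j) := (range j).mapQ (range j) F hst with hF₂
  have hπF : ∀ x, π (F x) = F₂ (π x) := fun x => rfl
  have hπs : Function.Surjective π := (range j).mkQ_surjective
  have hF₂s : Function.Surjective F₂ := by
    intro y
    obtain ⟨x, rfl⟩ := hπs y
    obtain ⟨x', rfl⟩ := hF x
    exact ⟨π x', rfl⟩
  have hn : finrank K (V ⧸ range j) + 2 = finrank K V := by
    have h1 := (range j).finrank_quotient_add_finrank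
    rw [LinearMap.finrank_range_of_inj hji, finrank_prod, finrank_self] at h1
    omega
  have hex : Function.Exact j π := by
    intro x
    rw [hπ, Submodule.mkQ_apply, Submodule.Quotient.mk_eq_zero]
    rfl
  -- the two-dimensional space in the universe of `V`
  obtain ⟨l, hl1, hl2, hl3⟩ := exists_spec.{u, v, w} _ (V ⧸ range j) F₂ hF₂s rfl
  refine ⟨α, l, by rw [hl1, hn], hα, hl2, ?_⟩
  intro M _ _ _ G hG β
  have hex' := rTensor_exact M hex hπs
  have hj' : Function.Injective (rTensor M j) :=
    Module.Flat.rTensor_preserves_injective_linearMap j hji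
  have hm : ∀ x : (K × K) ⊗[K] M, rTensor M j (TensorProduct.map (blk α) G x) =
      TensorProduct.map F G (rTensor M j x) := by
    intro x
    induction x using TensorProduct.induction_on with
    | zero => simp only [map_zero]
    | tmul a b =>
      rw [TensorProduct.map_tmul, rTensor_tmul, rTensor_tmul, TensorProduct.map_tmul, hjF]
    | add a b ha hb => rw [map_add, map_add, ha, hb, map_add, map_add]
  obtain ⟨h3, h4⟩ := hl3 M G β
  constructor
  · intro k
    have h5 := kd_le_add hj' (fun x hx => (hex' x).1 hx) hm
      (fun x => (map_rTensor (fun y => hπF y) G x)) β (k + 1)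
    rw [kd_blk hG hα] at h5
    exact h5.trans (Nat.add_le_add_left (h3 (k + 1)) _)
  · have h5 := gd_add_le hj' (fun x hx => (hex' x).1 hx) (fun y => (hex' _).2 ⟨y, rfl⟩)
      (rTensor_surjective M hπs) hm (fun x => (map_rTensor (fun y => hπF y) G x)) β
    rw [gd_blk hG hα] at h5
    exact (Nat.add_le_add_left h4 _).trans h5

end Pool.Agent.Q56.NS
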