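import Pool.Agent.Q56.NS.Ker

/-!
The kernels of the powers of `F ⊗ G - β` for an operator `F` with a Jordan block of size two.
-/

set_option autoImplicit false
set_option linter.unusedSectionVars false

open Module LinearMap TensorProduct

namespace Pool.Agent.Q56.NS

universe u v w

variable {K : Type u} [Field K]

section jordan

variable {M : Type w} [AddCommGroup M] [Module K M]

/-- the tensor product of `G` with the Jordan block of size two and eigenvalue `α` -/
def jb (G : Module.End K M) (α : K) : Module.End K (M × M) :=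
  LinearMap.prod (α • (G ∘ₗ LinearMap.fst K M M) + G ∘ₗ LinearMap.snd K M M)
    (α • (G ∘ₗ LinearMap.snd K M M))

theorem jb_apply (G : Module.End K M) (α : K) (x : M × M) :
    jb G α x = (α • G x.1 + G x.2, α • G x.2) := rfl

theorem sb_comm (G : Module.End K M) (β : K) (k : ℕ) (x : M) :
    (sb G β ^ k) (G x) = G ((sb G β ^ k) x) := by
  have h : ∀ x, G (sb G β x) = sb G β (G x) := by
    intro x
    rw [sb_apply, sb_apply, map_sub, map_smul]
  exact (pow_map (i := G) h k x).symm

theorem sb_jb {G : Module.End K M} {α : K} (hα : α ≠ 0) (β : K) (x : M × M) :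
    sb (jb G α) β x = (α • sb G (β / α) x.1 + G x.2, α • sb G (β / α) x.2) := by
  rw [sb_apply, jb_apply, sb_apply, sb_apply]
  refine Prod.ext ?_ ?_
  · simp only [Prod.fst_sub, Prod.smul_fst]
    rw [smul_sub, smul_smul, mul_div_cancel₀ _ hα]
    abel
  · simp only [Prod.snd_sub, Prod.smul_snd]
    rw [smul_sub, smul_smul, mul_div_cancel₀ _ hα]

theorem sb_jb_pow {G : Module.End K M} {α : K} (hα : α ≠ 0) (β : K) (k : ℕ) (x : M × M) :
    (sb (jb G α) β ^ (k + 1)) x =
      (α ^ (k + 1) • (sb G (β / α) ^ (k + 1)) x.1 +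
        ((k + 1 : ℕ) * α ^ k : K) • G ((sb G (β / α) ^ k) x.2),
        α ^ (k + 1) • (sb G (β / α) ^ (k + 1)) x.2) := by
  induction k generalizing x with
  | zero =>
    rw [zero_add, pow_one, sb_jb hα]
    simp
  | succ k ih =>
    rw [pow_succ', Module.End.mul_apply, ih, sb_jb hα]
    refine Prod.ext ?_ ?_
    · dsimp only
      rw [map_add, map_smul, map_smul, map_smul]
      have h1 : sb G (β / α) (G ((sb G (β / α) ^ k) x.2)) =
          G ((sb G (β / α) ^ (k + 1)) x.2) := by
        rw [pow_succ', Module.End.mul_apply]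
        have := sb_comm G (β / α) 1 ((sb G (β / α) ^ k) x.2)
        rwa [pow_one] at this
      rw [h1, ← Module.End.mul_apply (sb G (β / α)), ← pow_succ', smul_add, smul_smul, smul_smul,
        add_assoc, ← add_smul]
      congr 1
      · rw [← pow_succ']
      · congr 1
        push_cast
        ring
    · dsimp only
      rw [map_smul, ← Module.End.mul_apply (sb G (β / α)), ← pow_succ', smul_smul, ← pow_succ']

/-- **The tensor product with a Jordan block of size two.** -/
theorem kd_jb [CharZero K] [Module.Finite K M] {G : Module.End K M} (hG : Function.Injective G)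
    {α : K} (hα : α ≠ 0) (β : K) (k : ℕ) :
    kd (jb G α) β (k + 1) = kd G (β / α) (k + 2) + kd G (β / α) k := by
  set A := sb G (β / α) with hA
  let g := LinearEquiv.ofInjectiveEndo G hG
  have hg : ∀ x, g x = G x := fun x => rfl
  have hgA : ∀ (m : ℕ) x, (A ^ m) (g.symm x) = g.symm ((A ^ m) x) := by
    intro m x
    apply g.injective
    rw [LinearEquiv.apply_symm_apply, hg, ← sb_comm, ← hg, LinearEquiv.apply_symm_apply]
  have hk : ((k + 1 : ℕ) : K) ≠ 0 := Nat.cast_ne_zero.2 (Nat.succ_ne_zero k)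
  -- the kernel
  have hker : ∀ x : M × M, x ∈ ker (sb (jb G α) β ^ (k + 1)) ↔
      (A ^ k) (α • A x.1 + ((k + 1 : ℕ) : K) • G x.2) = 0 ∧ (A ^ (k + 1)) x.2 = 0 := by
    intro x
    rw [mem_ker, sb_jb_pow hα, ← hA, Prod.mk_eq_zero]
    refine and_congr ?_ ?_
    · have h1 : α ^ (k + 1) • (A ^ (k + 1)) x.1 + ((k + 1 : ℕ) * α ^ k : K) • G ((A ^ k) x.2) =
          α ^ k • (A ^ k) (α • A x.1 + ((k + 1 : ℕ) : K) • G x.2) := by
        rw [map_add, map_smul, map_smul, sb_comm, pow_succ A, Module.End.mul_apply, smul_add,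
          smul_smul, smul_smul, ← pow_succ, mul_comm (α ^ k)]
      rw [h1, smul_eq_zero]
      exact ⟨fun h => h.resolve_left (pow_ne_zero _ hα), Or.inr⟩
    · rw [smul_eq_zero]
      exact ⟨fun h => h.resolve_left (pow_ne_zero _ hα), Or.inr⟩
  let Θ : (M × M) →ₗ[K] (M × M) := LinearMap.prod (LinearMap.fst K M M)
    (α • (A ∘ₗ LinearMap.fst K M M) + ((k + 1 : ℕ) : K) • (G ∘ₗ LinearMap.snd K M M))
  have hΘ : ∀ x, Θ x = (x.1, α • A x.1 + ((k + 1 : ℕ) : K) • G x.2) := fun x => rfl
  have hΘi : Function.Injective Θ := by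
    rintro ⟨x, y⟩ ⟨x', y'⟩ h
    rw [hΘ, hΘ, Prod.mk.injEq] at h
    obtain ⟨h1, h2⟩ := h
    dsimp only at h1 h2
    subst h1
    rw [add_right_inj] at h2
    rw [hG (smul_right_injective M hk h2)]
  let Ψ : (ker (A ^ (k + 2)) × ker (A ^ k)) →ₗ[K] (M × M) :=
    LinearMap.prodMap (ker (A ^ (k + 2))).subtype (ker (A ^ k)).subtype
  have hΨi : Function.Injective Ψ := by
    rintro ⟨x, y⟩ ⟨x', y'⟩ h
    have h1 := congrArg Prod.fst h
    have h2 := congrArg Prod.snd h
    exact Prod.ext (Subtype.ext h1) (Subtype.ext h2)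
  have hmap : (ker (sb (jb G α) β ^ (k + 1))).map Θ = range Ψ := by
    ext z
    constructor
    · rintro ⟨x, hx, rfl⟩
      obtain ⟨h1, h2⟩ := (hker x).1 hx
      have h3 : (A ^ (k + 2)) x.1 = 0 := by
        have h4 : (A ^ (k + 1)) (α • A x.1 + ((k + 1 : ℕ) : K) • G x.2) = 0 := by
          rw [pow_succ', Module.End.mul_apply, h1, map_zero]
        rw [map_add, map_smul, map_smul, sb_comm, h2, map_zero, smul_zero, add_zero,
          ← Module.End.mul_apply (A ^ (k + 1)), ← pow_succ] at h4
        exact (smul_eq_zero.1 h4).resolve_left hα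
      exact ⟨(⟨x.1, h3⟩, ⟨_, h1⟩), rfl⟩
    · rintro ⟨⟨⟨x, hx⟩, ⟨w, hw⟩⟩, rfl⟩
      rw [mem_ker] at hx hw
      refine ⟨(x, g.symm (((k + 1 : ℕ) : K)⁻¹ • (w - α • A x))), ?_, ?_⟩
      · have h5 : α • A x + ((k + 1 : ℕ) : K) • G (g.symm (((k + 1 : ℕ) : K)⁻¹ • (w - α • A x)))
            = w := by
          rw [← hg, LinearEquiv.apply_symm_apply, smul_smul, mul_inv_cancel₀ hk, one_smul]
          abel
        refine (hker _).2 ⟨?_, ?_⟩
        · dsimp only
          rw [h5, hw]
        · dsimp only
          rw [hgA, map_smul, map_sub, map_smul]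
          have h6 : (A ^ (k + 1)) w = 0 := by
            rw [pow_succ', Module.End.mul_apply, hw, map_zero]
          have h7 : (A ^ (k + 1)) (A x) = 0 := by
            rw [← Module.End.mul_apply (A ^ (k + 1)), ← pow_succ]
            exact hx
          rw [h6, map_smul, h7, smul_zero, sub_zero, map_zero, smul_zero]
      · rw [hΘ]
        dsimp only
        rw [← hg, LinearEquiv.apply_symm_apply, smul_smul, mul_inv_cancel₀ hk, one_smul]
        refine Prod.ext rfl ?_
        change α • A x + (w - α • A x) = w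
        abel
  have h1 : finrank K ((ker (sb (jb G α) β ^ (k + 1))).map Θ) = kd (jb G α) β (k + 1) :=
    (Submodule.equivMapOfInjective Θ hΘi _).finrank_eq.symm
  rw [← h1, hmap, LinearMap.finrank_range_of_inj hΨi, finrank_prod]
  rfl

theorem gd_jb [CharZero K] [Module.Finite K M] {G : Module.End K M} (hG : Function.Injective G)
    {α : K} (hα : α ≠ 0) (β : K) : gd (jb G α) β = 2 * gd G (β / α) := by
  have h := kd_jb hG hα β (finrank K (M × M))
  have h1 : finrank K M ≤ finrank K (M × M) := by
    rw [finrank_prod]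
    omega
  rw [kd_eq_gd _ _ (by omega), kd_eq_gd _ _ (by omega), kd_eq_gd _ _ h1] at h
  omega

end jordan

section tensor

variable {U : Type*} {V : Type*} {R : Type*} [AddCommGroup U] [Module K U] [AddCommGroup V] [Module K V]
  [AddCommGroup R] [Module K R] {M : Type w} [AddCommGroup M] [Module K M]

theorem map_rTensor {F : Module.End K V} {F' : Module.End K U} {j : U →ₗ[K] V}
    (h : ∀ x, j (F' x) = F (j x)) (G : Module.End K M) (x : U ⊗[K] M) :
    rTensor M j (TensorProduct.map F' G x) = TensorProduct.map F G (rTensor M j x) := by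
  induction x using TensorProduct.induction_on with
  | zero => simp only [map_zero]
  | tmul a b => rw [TensorProduct.map_tmul, rTensor_tmul, rTensor_tmul, TensorProduct.map_tmul, h]
  | add a b ha hb => rw [map_add, map_add, ha, hb, map_add, map_add]

theorem kd_tensor_le [Module.Finite K U] [Module.Finite K V] [Module.Finite K R]
    [Module.Finite K M] {F : Module.End K V} {F₁ : Module.End K U} {F₂ : Module.End K R}
    {j : U →ₗ[K] V} {π : V →ₗ[K] R} (hj : Function.Injective j) (hπ : Function.Surjective π)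
    (hex : Function.Exact j π) (h1 : ∀ x, j (F₁ x) = F (j x)) (h2 : ∀ x, π (F x) = F₂ (π x))
    (G : Module.End K M) (β : K) :
    (∀ k, kd (TensorProduct.map F G) β k ≤ kd (TensorProduct.map F₁ G) β k +
      kd (TensorProduct.map F₂ G) β k) ∧
    gd (TensorProduct.map F₁ G) β + gd (TensorProduct.map F₂ G) β ≤
      gd (TensorProduct.map F G) β := by
  have hex' := rTensor_exact M hex hπ
  have hj' : Function.Injective (rTensor M j) :=
    Module.Flat.rTensor_preserves_injective_linearMap j hj
  refine ⟨fun k => kd_le_add hj' (fun x hx => (hex' x).1 hx) (map_rTensor h1 G)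
    (fun x => (map_rTensor (fun y => h2 y) G x)) β k, ?_⟩
  exact gd_add_le hj' (fun x hx => (hex' x).1 hx) (fun y => (hex' _).2 ⟨y, rfl⟩)
    (rTensor_surjective M hπ) (map_rTensor h1 G) (fun x => (map_rTensor (fun y => h2 y) G x)) β

end tensor

end Pool.Agent.Q56.NS
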